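import Pool.Agent.Helper13.DS.Model
import Pool.Agent.Helper36.AS.Pair
import Pool.Agent.Helper31.DS.Defs

/-!
# The middle dimensional rational cohomology of the infinite cyclic cover is zero

`A` is the complement of the knot, `θ : A → S¹`, `C = cov A θ` the infinite cyclic cover. `A` is the
union of an open subset homeomorphic to `M × Z` (`θ = τ m θ_Z`) and of a closed subset on which a
circle action turns `θ` once. If `Hc^(n+1)(A;ℚ) = 0` then `Hc^(n+2)(C;ℚ) = 0` (`acyclic`).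

Proof. `shift^*` is the identity on the cohomology of the part of `C` over the open subset
(`shift_eq`) and on the cohomology of the rest (isotopy by the circle action). So
`(shift^* - 1)² = 0` on `Hc^(n+2)(C;ℚ)`, and `shift^* - 1` is injective by `wang`.
-/

namespace Pool.Agent.Helper13.DS

open Set Filter Topology Pool.Agent.Helper36.AS

set_option linter.unusedSectionVars false

variable {P M : Type*} [MetricSpace P] [MetricSpace M]

theorem isLocallyClosed_cov {A : Set P} {θ : P → Circle} (hθ : ContinuousOn θ A) (hA : IsOpen A)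
    {F : Set (P × ℝ)} (hF : IsClosed F) : IsLocallyClosed (cov A θ ∩ F) := by
  have h1 : IsOpen {q : P × ℝ | q.1 ∈ A} := hA.preimage continuous_fst
  have h2 : ContinuousOn (fun q : P × ℝ => ((θ q.1, Circle.exp q.2) : Circle × Circle))
      {q : P × ℝ | q.1 ∈ A} :=
    (hθ.comp continuous_fst.continuousOn fun q hq => hq).prodMk
      (Circle.exp.continuous.comp continuous_snd).continuousOn
  have h3 := h2.isOpen_inter_preimage h1 (isClosed_diagonal (X := Circle)).isOpen_compl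
  refine ⟨{q : P × ℝ | q.1 ∈ A}, ({q : P × ℝ | q.1 ∈ A} ∩
    (fun q : P × ℝ => ((θ q.1, Circle.exp q.2) : Circle × Circle)) ⁻¹' (diagonal Circle)ᶜ)ᶜ ∩ F,
    h1, h3.isClosed_compl.inter hF, ?_⟩
  ext q
  simp only [cov, mem_inter_iff, mem_ofPred_eq, mem_compl_iff, mem_preimage, mem_diagonal_iff]
  tauto

/-- The data. -/
structure Data (A : Set P) (θ : P → Circle) (τ : M → Circle) (Rm : Circle → M → M)
    (U : M × ↥Helper31.DS.Zt → P) (rot : Circle → P → P) : Prop where
  hθ : ContinuousOn θ A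
  hA : IsOpen A
  hτ : Continuous τ
  act : Act τ Rm
  hU : IsOpenEmbedding U
  hUA : range U ⊆ A
  hUθ : ∀ m q, (θ (U (m, q)) : ℂ) = (τ m : ℂ) * ((q : ℂ × ℂ).1 ^ 2 - (q : ℂ × ℂ).2 ^ 3)
  rot_cont : Continuous fun p : Circle × P => rot p.1 p.2
  rot_one : ∀ z, rot 1 z = z
  rot_mul : ∀ u v z, rot (u * v) z = rot u (rot v z)
  rot_mem : ∀ u, ∀ z ∈ A, z ∉ range U → rot u z ∈ A ∧ rot u z ∉ range U ∧ θ (rot u z) = u * θ z

namespace Data

variable {A : Set P} {θ : P → Circle} {τ : M → Circle} {Rm : Circle → M → M}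
  {U : M × ↥Helper31.DS.Zt → P} {rot : Circle → P → P}

/-- The part of `P × ℝ` over the complement of the open part. -/
def Fc (U : M × ↥Helper31.DS.Zt → P) : Set (P × ℝ) := {q | q.1 ∉ range U}

theorem isClosed_Fc (h : Data A θ τ Rm U rot) : IsClosed (Fc U) :=
  h.hU.isOpen_range.isClosed_compl.preimage continuous_fst

theorem good (h : Data A θ τ Rm U rot) [LocallyCompactSpace P] : Good IsCompact (cov A θ) := by
  have h1 := isLocallyClosed_cov h.hθ h.hA isClosed_univ
  rw [inter_univ] at h1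
  exact good_compact _ h1.locallyCompactSpace

theorem good_Fc (h : Data A θ τ Rm U rot) [LocallyCompactSpace P] :
    Good IsCompact (cov A θ ∩ Fc U) :=
  good_compact _ (isLocallyClosed_cov h.hθ h.hA h.isClosed_Fc).locallyCompactSpace

/-! ### The rest -/

/-- The isotopy on the rest. -/
noncomputable def rotC (rot : Circle → P → P) (φ : ℝ) (q : P × ℝ) : P × ℝ :=
  (rot (Circle.exp φ) q.1, q.2 + φ)

theorem rotC_mem (h : Data A θ τ Rm U rot) {q : P × ℝ} (hq : q ∈ cov A θ ∩ Fc U) (φ : ℝ) :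
    rotC rot φ q ∈ cov A θ ∩ Fc U := by
  obtain ⟨⟨hqA, hqθ⟩, hqF⟩ := hq
  obtain ⟨h1, h2, h3⟩ := h.rot_mem (Circle.exp φ) q.1 hqA hqF
  refine ⟨⟨h1, ?_⟩, h2⟩
  show θ (rot (Circle.exp φ) q.1) = Circle.exp (q.2 + φ)
  rw [h3, hqθ, ← Circle.exp_add, add_comm]

theorem rotC_rotC (h : Data A θ τ Rm U rot) (φ ψ : ℝ) (q : P × ℝ) :
    rotC rot φ (rotC rot ψ q) = rotC rot (φ + ψ) q := by
  simp only [rotC, Circle.exp_add, h.rot_mul, Prod.mk.injEq, true_and]
  ring

theorem rotC_zero (h : Data A θ τ Rm U rot) (q : P × ℝ) : rotC rot 0 q = q := by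
  simp [rotC, h.rot_one]

theorem continuous_rotC (h : Data A θ τ Rm U rot) :
    Continuous fun p : ℝ × (P × ℝ) => rotC rot p.1 p.2 := by
  unfold rotC
  have h1 : Continuous fun p : ℝ × (P × ℝ) => rot (Circle.exp p.1) p.2.1 :=
    h.rot_cont.comp ((Circle.exp.continuous.comp continuous_fst).prodMk (by fun_prop))
  exact h1.prodMk (by fun_prop)

theorem shift_Fc {q : P × ℝ} (hq : q ∈ cov A θ ∩ Fc U) (i : ℤ) :
    shift i q ∈ cov A θ ∩ Fc U := ⟨shift_mem hq.1 i, hq.2⟩

theorem smap_Fc (i : ℤ) :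
    SMap IsCompact IsCompact (cov A θ ∩ Fc U) (cov A θ ∩ Fc U) (shift i) :=
  smap_of_inv (ψ := shift (-i)) (continuous_shift i).continuousOn (fun _ hq => shift_Fc hq i)
    (continuous_shift (-i)).continuousOn (fun _ hq => shift_Fc hq (-i))
    (fun q _ => by rw [shift_shift, add_neg_cancel, shift_zero])
    (fun q _ => by rw [shift_shift, neg_add_cancel, shift_zero])

theorem shift_Fc_eq (h : Data A θ τ Rm U rot) [LocallyCompactSpace P] {R : Type*} [CommRing R]
    (n : ℕ) (α : Hc R (cov A θ ∩ Fc U) n) :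
    (smap_Fc (A := A) (θ := θ) (U := U) 1).map R n α = α := by
  have hc : Continuous fun p : (P × ℝ) × ℝ => rotC rot (2 * Real.pi * p.2) p.1 :=
    h.continuous_rotC.comp ((continuous_const.mul continuous_snd).prodMk continuous_fst)
  have hc' : Continuous fun p : (P × ℝ) × ℝ => rotC rot (-(2 * Real.pi * p.2)) p.1 :=
    h.continuous_rotC.comp ((continuous_const.mul continuous_snd).neg.prodMk continuous_fst)
  have hG : SHomotopy IsCompact IsCompact (cov A θ ∩ Fc U) (cov A θ ∩ Fc U)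
      (fun q s => rotC rot (2 * Real.pi * s) q) :=
    shomotopy_of_inv (G' := fun q s => rotC rot (-(2 * Real.pi * s)) q) hc.continuousOn
      (fun q hq s _ => h.rotC_mem hq _) hc'.continuousOn (fun q hq s _ => h.rotC_mem hq _)
      (fun q _ s _ => by rw [h.rotC_rotC, neg_add_cancel, h.rotC_zero])
      (fun q _ s _ => by rw [h.rotC_rotC, add_neg_cancel, h.rotC_zero])
  have h1 := hG.map_eq (R := R) h.good_Fc (φ := fun q => q) (ψ := shift 1) (SMap.refl _ _)
    (smap_Fc 1) (fun q _ => by rw [mul_zero]; exact h.rotC_zero q)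
    (fun q _ => by
      simp only [rotC, shift, mul_one, Circle.exp_two_pi, h.rot_one]
      push_cast
      rw [one_mul]) n α
  rw [← h1, SMap.map_refl]

/-! ### The open part -/

theorem smap_open (i : ℤ) :
    SMap IsCompact IsCompact (cov A θ \ Fc U) (cov A θ \ Fc U) (shift i) :=
  smap_of_inv (ψ := shift (-i)) (continuous_shift i).continuousOn
    (fun _ hq => ⟨shift_mem hq.1 i, hq.2⟩)
    (continuous_shift (-i)).continuousOn (fun _ hq => ⟨shift_mem hq.1 (-i), hq.2⟩)
    (fun q _ => by rw [shift_shift, add_neg_cancel, shift_zero])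
    (fun q _ => by rw [shift_shift, neg_add_cancel, shift_zero])

theorem shift_open_eq (h : Data A θ τ Rm U rot) [CompactSpace M] [Nonempty M] (n : ℕ)
    (β : Hc ℚ (cov A θ \ Fc U) n) :
    (smap_open (A := A) (θ := θ) (U := U) 1).map ℚ n β = β := by
  classical
  obtain ⟨m₀⟩ := ‹Nonempty M›
  have hz₀ : ((1, 0) : ℂ × ℂ) ∈ Helper31.DS.Zt := by simp [Helper31.DS.Zt]
  have hne : Nonempty (M × ↥Helper31.DS.Zt) := ⟨(m₀, ⟨_, hz₀⟩)⟩
  set e := h.hU.toOpenPartialHomeomorph U with he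
  set φ : (M × (ℂ × ℂ)) × ℝ → P × ℝ := fun q =>
    (if hz : q.1.2 ∈ Helper31.DS.Zt then U (q.1.1, ⟨q.1.2, hz⟩) else U (m₀, ⟨_, hz₀⟩), q.2) with hφ
  set ψ : P × ℝ → (M × (ℂ × ℂ)) × ℝ := fun q =>
    (((e.symm q.1).1, ((e.symm q.1).2 : ℂ × ℂ)), q.2) with hψ
  have hZ : ∀ q : (M × (ℂ × ℂ)) × ℝ, q ∈ Ut τ → q.1.2 ∈ Helper31.DS.Zt := by
    intro q hq
    have h1 : (τ q.1.1 : ℂ) * (q.1.2.1 ^ 2 - q.1.2.2 ^ 3) = (Circle.exp q.2 : ℂ) := hq
    have h2 := congrArg norm h1
    rw [norm_mul, Circle.norm_coe, Circle.norm_coe, one_mul] at h2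
    exact h2
  have hφe : ∀ (q : (M × (ℂ × ℂ)) × ℝ) (hz : q.1.2 ∈ Helper31.DS.Zt),
      φ q = (U (q.1.1, ⟨q.1.2, hz⟩), q.2) := by
    intro q hz
    simp only [hφ, dif_pos hz]
  have he1 : ∀ x, e.symm (U x) = x := fun x => e.left_inv (by simp [he])
  have he2 : ∀ z ∈ range U, U (e.symm z) = z := fun z hz => e.right_inv (by simpa [he] using hz)
  have hφm : MapsTo φ (Ut τ) (cov A θ \ Fc U) := by
    intro q hq
    rw [hφe q (hZ q hq)]
    refine ⟨⟨h.hUA ⟨_, rfl⟩, ?_⟩, fun h1 => h1 ⟨_, rfl⟩⟩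
    apply Subtype.ext
    rw [h.hUθ]
    exact hq
  have hψm : MapsTo ψ (cov A θ \ Fc U) (Ut τ) := by
    rintro q ⟨⟨hqA, hqθ⟩, hqF⟩
    have hr : q.1 ∈ range U := not_not.1 hqF
    show (τ (e.symm q.1).1 : ℂ) * (((e.symm q.1).2 : ℂ × ℂ).1 ^ 2 -
      ((e.symm q.1).2 : ℂ × ℂ).2 ^ 3) = (Circle.exp q.2 : ℂ)
    rw [← h.hUθ, ← hqθ]
    congr 2
    exact he2 _ hr
  have hφc : ContinuousOn φ (Ut τ) := by
    rw [continuousOn_iff_continuous_domRestrict]
    have h1 : (Ut τ).domRestrict φ = fun q : ↥(Ut τ) =>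
        (U (q.1.1.1, ⟨q.1.1.2, hZ q.1 q.2⟩), q.1.2) := by
      funext q
      exact hφe q.1 (hZ q.1 q.2)
    rw [h1]
    refine (h.hU.continuous.comp ?_).prodMk (by fun_prop)
    refine Continuous.prodMk (by fun_prop) ?_
    exact Continuous.subtype_mk (by fun_prop) _
  have hψc : ContinuousOn ψ (cov A θ \ Fc U) := by
    have h1 : ContinuousOn (fun q : P × ℝ => e.symm q.1) (cov A θ \ Fc U) := by
      refine e.continuousOn_symm.comp continuous_fst.continuousOn fun q hq => ?_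
      have hr : q.1 ∈ range U := not_not.1 hq.2
      simpa [he] using hr
    have h2 : ContinuousOn (fun q : P × ℝ => (((e.symm q.1).2 : ℂ × ℂ))) (cov A θ \ Fc U) :=
      continuous_subtype_val.comp_continuousOn (continuous_snd.comp_continuousOn h1)
    exact ((continuous_fst.comp_continuousOn h1).prodMk h2).prodMk continuous_snd.continuousOn
  have hψφ : ∀ q ∈ Ut τ, ψ (φ q) = q := by
    intro q hq
    rw [hφe q (hZ q hq)]
    simp only [hψ, he1]
  have hφψ : ∀ q ∈ cov A θ \ Fc U, φ (ψ q) = q := by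
    intro q hq
    have hr : q.1 ∈ range U := not_not.1 hq.2
    rw [hφe (ψ q) (hZ _ (hψm hq))]
    exact Prod.ext (he2 _ hr) rfl
  have sφ : SMap IsCompact IsCompact (Ut τ) (cov A θ \ Fc U) φ :=
    smap_of_inv hφc hφm hψc hψm hψφ hφψ
  have sψ : SMap IsCompact IsCompact (cov A θ \ Fc U) (Ut τ) ψ :=
    smap_of_inv hψc hψm hφc hφm hφψ hψφ
  -- `φ^*` is injective
  have hinj : ∀ γ : Hc ℚ (cov A θ \ Fc U) n, sψ.map ℚ n (sφ.map ℚ n γ) = γ := by
    intro γ
    rw [← SMap.map_comp, SMap.map_congr (sφ.comp sψ) (SMap.refl _ _) (fun q hq => hφψ q hq),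
      SMap.map_refl]
  have h1 : sφ.map ℚ n ((smap_open (A := A) (θ := θ) (U := U) 1).map ℚ n β) = sφ.map ℚ n β := by
    have e1 := SMap.map_comp (R := ℚ) (smap_open (A := A) (θ := θ) (U := U) 1) sφ n β
    have e2 := SMap.map_comp (R := ℚ) sφ (smap_shift (τ := τ) 1) n β
    have e3 := SMap.map_congr (R := ℚ) ((smap_open (A := A) (θ := θ) (U := U) 1).comp sφ)
      (sφ.comp (smap_shift (τ := τ) 1)) (fun q hq => by
        have hz := hZ q hq
        show shift 1 (φ q) = φ (shift 1 q)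
        rw [hφe q hz, hφe (shift 1 q) hz]
        rfl) n β
    have e4 := e1.symm.trans (e3.trans e2)
    rw [shift_eq h.hτ h.act] at e4
    exact e4
  have h2 := congrArg (sψ.map ℚ n) h1
  rwa [hinj, hinj] at h2

/-! ### Conclusion -/

theorem smap_off (i : ℤ) :
    SMap (Off IsCompact (Fc U)) (Off IsCompact (Fc U)) (cov A θ) (cov A θ) (shift i) := by
  refine ⟨(continuous_shift i).continuousOn, fun q hq => shift_mem hq i, fun K hK hKc => ?_⟩
  refine ⟨(shift_smap (A := A) (θ := θ) i).supp K hK hKc.1, ?_⟩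
  rw [Set.disjoint_left]
  rintro q ⟨_, hqK⟩ hqF
  exact Set.disjoint_left.1 hKc.2 hqK hqF

/-- **The rational cohomology of the infinite cyclic cover.** -/
theorem acyclic (h : Data A θ τ Rm U rot) [CompactSpace M] [Nonempty M] [LocallyCompactSpace P]
    {n : ℕ} (h0 : Subsingleton (Hc ℚ A (n + 1))) : Subsingleton (Hc ℚ (cov A θ) (n + 2)) := by
  have key : ∀ α : Hc ℚ (cov A θ) (n + 2),
      (shift_smap (A := A) (θ := θ) 1).map ℚ (n + 2) α = α := by
    intro α
    set T := (shift_smap (A := A) (θ := θ) 1).map ℚ (n + 2) with hT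
    -- `β = T α - α` comes from the open part
    have h1 : (SMap.incl IsCompact (cov A θ) (Fc U) h.isClosed_Fc).map ℚ (n + 2) (T α - α) = 0 := by
      rw [map_sub, sub_eq_zero]
      have e1 := SMap.map_comp (R := ℚ) (shift_smap (A := A) (θ := θ) 1)
        (SMap.incl IsCompact (cov A θ) (Fc U) h.isClosed_Fc) (n + 2) α
      have e2 := SMap.map_comp (R := ℚ) (SMap.incl IsCompact (cov A θ) (Fc U) h.isClosed_Fc)
        (smap_Fc (A := A) (θ := θ) (U := U) 1) (n + 2) α
      have e3 := SMap.map_congr (R := ℚ) ((shift_smap (A := A) (θ := θ) 1).comp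
        (SMap.incl IsCompact (cov A θ) (Fc U) h.isClosed_Fc))
        ((SMap.incl IsCompact (cov A θ) (Fc U) h.isClosed_Fc).comp
        (smap_Fc (A := A) (θ := θ) (U := U) 1)) (fun q _ => rfl) (n + 2) α
      have e4 := e1.symm.trans (e3.trans e2)
      rw [h.shift_Fc_eq] at e4
      exact e4
    rw [incl_eq_zero_iff h.isClosed_Fc h.good] at h1
    obtain ⟨β, hβ⟩ := h1
    have h2 : (smap_off (A := A) (θ := θ) (U := U) 1).map ℚ (n + 2) β = β := by
      apply (exc_bijective h.isClosed_Fc (n + 2)).1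
      have e1 := SMap.map_comp (R := ℚ) (smap_off (A := A) (θ := θ) (U := U) 1)
        (SMap.exc (cov A θ) (Fc U)) (n + 2) β
      have e2 := SMap.map_comp (R := ℚ) (SMap.exc (cov A θ) (Fc U))
        (smap_open (A := A) (θ := θ) (U := U) 1) (n + 2) β
      have e3 := SMap.map_congr (R := ℚ) ((smap_off (A := A) (θ := θ) (U := U) 1).comp
        (SMap.exc (cov A θ) (Fc U))) ((SMap.exc (cov A θ) (Fc U)).comp
        (smap_open (A := A) (θ := θ) (U := U) 1)) (fun q _ => rfl) (n + 2) β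
      have e4 := e1.symm.trans (e3.trans e2)
      rw [h.shift_open_eq] at e4
      exact e4
    have h3 : T (T α - α) = T α - α := by
      have e1 := SMap.map_comp (R := ℚ) (SMap.ofOff IsCompact (Fc U) (cov A θ))
        (shift_smap (A := A) (θ := θ) 1) (n + 2) β
      have e2 := SMap.map_comp (R := ℚ) (smap_off (A := A) (θ := θ) (U := U) 1)
        (SMap.ofOff IsCompact (Fc U) (cov A θ)) (n + 2) β
      have e3 := SMap.map_congr (R := ℚ) ((SMap.ofOff IsCompact (Fc U) (cov A θ)).comp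
        (shift_smap (A := A) (θ := θ) 1)) ((smap_off (A := A) (θ := θ) (U := U) 1).comp
        (SMap.ofOff IsCompact (Fc U) (cov A θ))) (fun q _ => rfl) (n + 2) β
      have e4 := e1.symm.trans (e3.trans e2)
      rw [h2, hβ] at e4
      exact e4
    have h4 := wang h.hθ h0 (T α - α) h3
    exact sub_eq_zero.1 h4
  refine ⟨fun α β => ?_⟩
  rw [wang h.hθ h0 α (key α), wang h.hθ h0 β (key β)]

end Data

end Pool.Agent.Helper13.DS
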