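import Pool.Agent.Helper36.AS.Key

/-!
# Transfer for branched double covers (Alexander-Spanier cohomology with compact supports)

`p : T → S` is a proper map whose fibres are the orbits `{x, ι x}` of an involution `ι` of `T`,
`s` is a set theoretic section. Then `c + ι^* c` is in the image of `p^*` for every class `c`
of compactly supported cohomology of `T` (`transfer`).

Proof. On the branch set `F` the section is continuous, so `s^* c` is a cocycle there; extend it
to a cochain `b` on `S` whose coboundary vanishes near the branch set (`exists_extension`). By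
`key_R`, `c = p^* b + o + d g` with `o` locally zero at the branch points. Away from the branch
points one has the usual transfer `tr o`, the sum of the values of `o` on the two coherent lifts
of a small simplex. Then `2 b + tr o` is a cocycle on `S` and its pullback is `c + ι^* c` up to
the coboundary of `g + ι^* g`.
-/

namespace Pool.Agent.Helper13.DS

open Set Filter Topology Pool.Agent.Helper36.AS

variable {X Y R : Type*}

/-- A branched double cover. -/
structure BDC [MetricSpace X] [MetricSpace Y] (T F : Set X) (S F' : Set Y)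
    (ι : X → X) (p : X → Y) (s : Y → X) : Prop where
  hF : IsClosed F
  hF' : IsClosed F'
  ιmap : SMap IsCompact IsCompact T T ι
  ιι : ∀ x ∈ T, ι (ι x) = x
  fixed : ∀ x ∈ T, ι x = x ↔ x ∈ F
  pmap : SMap IsCompact IsCompact T S p
  pι : ∀ x ∈ T, p (ι x) = p x
  pF : ∀ x ∈ T, p x ∈ F' ↔ x ∈ F
  smaps : MapsTo s S T
  ps : ∀ y ∈ S, p (s y) = y
  fib : ∀ x ∈ T, s (p x) = x ∨ s (p x) = ι x

namespace BDC

set_option linter.unusedSectionVars false

variable [MetricSpace X] [MetricSpace Y] [CommRing R] {T F : Set X} {S F' : Set Y} {ι : X → X}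
  {p : X → Y} {s : Y → X}

/-- Points over `y` close to `p x` are close to the orbit of `x`. -/
theorem near (h : BDC T F S F' ι p s) {x : X} (hx : x ∈ T) {V : Set X} (hV : V ∈ 𝓝 x) :
    ∃ U ∈ 𝓝 (p x), ∀ y ∈ U, y ∈ S → s y ∈ V ∨ ι (s y) ∈ V := by
  by_contra hcon
  push Not at hcon
  have hy : ∀ n : ℕ, ∃ y, dist y (p x) < 1 / ((n : ℝ) + 1) ∧ y ∈ S ∧ s y ∉ V ∧ ι (s y) ∉ V := by
    intro n
    obtain ⟨y, hyU, hyS, h1, h2⟩ := hcon (Metric.ball (p x) (1 / ((n : ℝ) + 1)))
      (Metric.ball_mem_nhds _ (by positivity))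
    exact ⟨y, hyU, hyS, h1, h2⟩
  choose y hyd hyS hy1 hy2 using hy
  have hyt : Tendsto y atTop (𝓝 (p x)) := by
    rw [tendsto_iff_dist_tendsto_zero]
    exact squeeze_zero (fun _ => dist_nonneg) (fun n => (hyd n).le)
      tendsto_one_div_add_atTop_nhds_zero_nat
  have hK : IsCompact (insert (p x) (range y)) := hyt.isCompact_insert_range
  have hKS : insert (p x) (range y) ⊆ S := by
    rintro z (rfl | ⟨n, rfl⟩)
    · exact h.pmap.maps hx
    · exact hyS n
  have hK2 := h.pmap.supp _ hKS hK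
  have hmem : ∀ n, s (y n) ∈ T ∩ p ⁻¹' (insert (p x) (range y)) := fun n =>
    ⟨h.smaps (hyS n), by rw [mem_preimage, h.ps _ (hyS n)]; exact Or.inr ⟨n, rfl⟩⟩
  obtain ⟨z, hz, φ, hφ, hlim⟩ := hK2.tendsto_subseq hmem
  have hzT : z ∈ T := hz.1
  have hlimT : Tendsto (fun n => s (y (φ n))) atTop (𝓝[T] z) :=
    tendsto_nhdsWithin_iff.2 ⟨hlim, Eventually.of_forall fun n => (hmem _).1⟩
  have h1 : Tendsto (fun n => p (s (y (φ n)))) atTop (𝓝 (p z)) := (h.pmap.cont z hzT).tendsto.comp hlimT
  have h2 : Tendsto (fun n => p (s (y (φ n)))) atTop (𝓝 (p x)) := by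
    have : (fun n => p (s (y (φ n)))) = fun n => y (φ n) := funext fun n => h.ps _ (hyS _)
    rw [this]
    exact hyt.comp hφ.tendsto_atTop
  have hpz : p z = p x := tendsto_nhds_unique h1 h2
  have h3 : Tendsto (fun n => ι (s (y (φ n)))) atTop (𝓝 (ι z)) :=
    (h.ιmap.cont z hzT).tendsto.comp hlimT
  have hzx : z = x ∨ ι z = x := by
    have f1 := h.fib z hzT
    have f2 := h.fib x hx
    rw [hpz] at f1
    rcases f1 with f1 | f1 <;> rcases f2 with f2 | f2
    · exact Or.inl (f1.symm.trans f2)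
    · right
      rw [← f1, f2, h.ιι x hx]
    · right
      rw [← f1, f2]
    · left
      have := f1.symm.trans f2
      rw [← h.ιι z hzT, this, h.ιι x hx]
  rcases hzx with rfl | hzx
  · obtain ⟨n, hn⟩ := (hlim.eventually hV).exists
    exact hy1 _ hn
  · rw [hzx] at h3
    obtain ⟨n, hn⟩ := (h3.eventually hV).exists
    exact hy2 _ hn

open Classical in
/-- The lift of `y` which is close to `x`. -/
noncomputable def lf (ι : X → X) (s : Y → X) (x : X) (y : Y) : X :=
  if dist (s y) x ≤ dist (ι (s y)) x then s y else ι (s y)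

theorem lf_or (ι : X → X) (s : Y → X) (x : X) (y : Y) :
    lf ι s x y = s y ∨ lf ι s x y = ι (s y) := by
  unfold lf
  split_ifs
  · exact Or.inl rfl
  · exact Or.inr rfl

theorem dist_lf_le (ι : X → X) (s : Y → X) (x : X) (y : Y) {r : ℝ}
    (h : dist (s y) x < r ∨ dist (ι (s y)) x < r) : dist (lf ι s x y) x < r := by
  unfold lf
  split_ifs with h1
  · rcases h with h | h
    · exact h
    · exact lt_of_le_of_lt h1 h
  · rcases h with h | h
    · exact lt_trans (not_le.1 h1) h
    · exact h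

theorem lf_mem (h : BDC T F S F' ι p s) (x : X) {y : Y} (hy : y ∈ S) : lf ι s x y ∈ T := by
  rcases lf_or ι s x y with h1 | h1 <;> rw [h1]
  · exact h.smaps hy
  · exact h.ιmap.maps (h.smaps hy)

theorem p_lf (h : BDC T F S F' ι p s) (x : X) {y : Y} (hy : y ∈ S) : p (lf ι s x y) = y := by
  rcases lf_or ι s x y with h1 | h1 <;> rw [h1]
  · exact h.ps y hy
  · rw [h.pι _ (h.smaps hy), h.ps y hy]

/-- The lift close to `x'` of `p z` is `z` if `z` is closer to `x'` than `ι z`. -/
theorem lf_eq (h : BDC T F S F' ι p s) {x z : X} (hz : z ∈ T) (hd : dist z x < dist (ι z) x) :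
    lf ι s x (p z) = z := by
  unfold lf
  rcases h.fib z hz with h1 | h1
  · rw [h1, if_pos hd.le]
  · rw [h1, h.ιι z hz, if_neg (not_le.2 hd)]

theorem lf_self (h : BDC T F S F' ι p s) {x : X} (hx : x ∈ T) : lf ι s x (p x) = x := by
  by_cases hxi : ι x = x
  · rcases lf_or ι s x (p x) with h1 | h1 <;> rcases h.fib x hx with h2 | h2 <;>
      simp only [h1, h2, hxi]
  · exact h.lf_eq hx (by rw [dist_self]; exact dist_pos.2 hxi)

theorem lf_cont (h : BDC T F S F' ι p s) {x : X} (hx : x ∈ T) :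
    ContinuousWithinAt (lf ι s x) S (p x) := by
  rw [Metric.continuousWithinAt_iff']
  intro ε hε
  rw [h.lf_self hx]
  obtain ⟨U, hU, hU'⟩ := h.near hx (Metric.ball_mem_nhds x hε)
  filter_upwards [mem_nhdsWithin_of_mem_nhds hU, self_mem_nhdsWithin] with y hy hyS
  exact dist_lf_le ι s x y (hU' y hy hyS)

/-- The section is continuous at the branch points. -/
theorem s_cont (h : BDC T F S F' ι p s) {y : Y} (hy : y ∈ S) (hyF : y ∈ F') :
    ContinuousWithinAt s S y := by
  have hs := h.smaps hy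
  have hfix : ι (s y) = s y := by
    rw [h.fixed _ hs, ← h.pF _ hs, h.ps y hy]
    exact hyF
  rw [Metric.continuousWithinAt_iff']
  intro ε hε
  have hV : {x | x ∈ T → dist (ι x) (s y) < ε} ∈ 𝓝 (s y) := by
    have h1 := h.ιmap.cont _ hs
    rw [Metric.continuousWithinAt_iff'] at h1
    have h2 := h1 ε hε
    rw [hfix, eventually_nhdsWithin_iff] at h2
    exact h2
  obtain ⟨U, hU, hU'⟩ := h.near hs (inter_mem (Metric.ball_mem_nhds (s y) hε) hV)
  rw [h.ps y hy] at hU
  filter_upwards [mem_nhdsWithin_of_mem_nhds hU, self_mem_nhdsWithin] with z hz hzS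
  rcases hU' z hz hzS with h3 | h3
  · exact h3.1
  · have h4 := h3.2 (h.ιmap.maps (h.smaps hzS))
    rwa [h.ιι _ (h.smaps hzS)] at h4

/-- Transfer. -/
noncomputable def tr (ι : X → X) (s : Y → X) (f : List X → R) : List Y → R
  | [] => 0
  | y :: l => f (s y :: l.map (lf ι s (s y))) + f (ι (s y) :: l.map (lf ι s (ι (s y))))

theorem closer {x x' z a b : X} (hz : dist z x < dist x x' / 4) (ha : dist a x < dist x x' / 4)
    (hb : dist b x' < dist x x' / 4) : dist a z < dist b z := by
  have t1 := dist_triangle_right a z x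
  have t2 := dist_triangle4 x z b x'
  rw [dist_comm x z, dist_comm z b] at t2
  linarith

theorem lf_of_lt {z : X} {y : Y} (hd : dist (s y) z < dist (ι (s y)) z) : lf ι s z y = s y := by
  unfold lf
  rw [if_pos hd.le]

theorem lf_of_gt {z : X} {y : Y} (hd : dist (ι (s y)) z < dist (s y) z) :
    lf ι s z y = ι (s y) := by
  unfold lf
  rw [if_neg (not_le.2 hd)]

/-- The local form of the transfer at points which are not branch points. -/
theorem tr_local (h : BDC T F S F' ι p s) {x : X} (hx : x ∈ T) (hxF : x ∉ F) :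
    ∃ U ∈ 𝓝 (p x), ∀ l : List Y, l ≠ [] → (∀ y ∈ l, y ∈ U ∧ y ∈ S) → ∀ f : List X → R,
      tr ι s f l = f (l.map (lf ι s x)) + f (l.map (lf ι s (ι x))) := by
  have hne : ι x ≠ x := fun h1 => hxF ((h.fixed x hx).1 h1)
  have hδ : 0 < dist x (ι x) := dist_pos.2 hne.symm
  have hcomm : dist (ι x) x = dist x (ι x) := dist_comm _ _
  have hιx := h.ιmap.maps hx
  obtain ⟨U₁, hU₁, h1⟩ := h.near hx
    (Metric.ball_mem_nhds x (show 0 < dist x (ι x) / 4 by positivity))
  obtain ⟨U₂, hU₂, h2⟩ := h.near hιx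
    (Metric.ball_mem_nhds (ι x) (show 0 < dist x (ι x) / 4 by positivity))
  rw [h.pι x hx] at hU₂
  simp only [Metric.mem_ball] at h1 h2
  have hx0 : dist x x < dist x (ι x) / 4 := by rw [dist_self]; positivity
  have hx1 : dist (ι x) (ι x) < dist (ι x) x / 4 := by rw [dist_self, hcomm]; positivity
  -- for every `y` close to `p x` the two lifts are close to `x` and to `ι x`
  have key : ∀ y ∈ U₁ ∩ U₂, y ∈ S →
      (dist (s y) x < dist x (ι x) / 4 ∧ dist (ι (s y)) (ι x) < dist x (ι x) / 4) ∨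
      (dist (ι (s y)) x < dist x (ι x) / 4 ∧ dist (s y) (ι x) < dist x (ι x) / 4) := by
    intro y hy hyS
    have a1 := h1 y hy.1 hyS
    have a2 := h2 y hy.2 hyS
    rcases a1 with a1 | a1 <;> rcases a2 with a2 | a2
    · exfalso
      have := dist_triangle_left x (ι x) (s y)
      linarith
    · exact Or.inl ⟨a1, a2⟩
    · exact Or.inr ⟨a1, a2⟩
    · exfalso
      have := dist_triangle_left x (ι x) (ι (s y))
      linarith
  -- the lift close to a point close to `x`
  have key2 : ∀ y ∈ U₁ ∩ U₂, y ∈ S → ∀ z, dist z x < dist x (ι x) / 4 →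
      lf ι s z y = lf ι s x y := by
    intro y hy hyS z hz
    rcases key y hy hyS with ⟨a1, a2⟩ | ⟨a1, a2⟩
    · rw [lf_of_lt (closer hz a1 a2), lf_of_lt (closer hx0 a1 a2)]
    · rw [lf_of_gt (closer hz a1 a2), lf_of_gt (closer hx0 a1 a2)]
  have key3 : ∀ y ∈ U₁ ∩ U₂, y ∈ S → ∀ z, dist z (ι x) < dist x (ι x) / 4 →
      lf ι s z y = lf ι s (ι x) y := by
    intro y hy hyS z hz
    rw [← hcomm] at hz
    have := key y hy hyS
    rw [← hcomm] at this
    rcases this with ⟨a1, a2⟩ | ⟨a1, a2⟩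
    · rw [lf_of_gt (closer hz a2 a1), lf_of_gt (closer hx1 a2 a1)]
    · rw [lf_of_lt (closer hz a2 a1), lf_of_lt (closer hx1 a2 a1)]
  refine ⟨U₁ ∩ U₂, inter_mem hU₁ hU₂, fun l hl hl' f => ?_⟩
  match l, hl with
  | y :: l, _ =>
    obtain ⟨hyU, hyS⟩ := hl' y (by simp)
    have hl'' : ∀ z ∈ l, z ∈ U₁ ∩ U₂ ∧ z ∈ S := fun z hz => hl' z (by simp [hz])
    simp only [tr, List.map_cons]
    rcases key y hyU hyS with ⟨a1, a2⟩ | ⟨a1, a2⟩
    · have b1 : lf ι s x y = s y := lf_of_lt (closer hx0 a1 a2)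
      have b2 : lf ι s (ι x) y = ι (s y) := by
        apply lf_of_gt
        apply closer hx1 <;> rwa [hcomm]
      rw [b1, b2]
      congr 3
      · exact List.map_congr_left fun z hz => key2 z (hl'' z hz).1 (hl'' z hz).2 _ a1
      · exact List.map_congr_left fun z hz => key3 z (hl'' z hz).1 (hl'' z hz).2 _ a2
    · have b1 : lf ι s x y = ι (s y) := lf_of_gt (closer hx0 a1 a2)
      have b2 : lf ι s (ι x) y = s y := by
        apply lf_of_lt
        apply closer hx1 <;> rwa [hcomm]
      rw [b1, b2, add_comm]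
      congr 3
      · exact List.map_congr_left fun z hz => key2 z (hl'' z hz).1 (hl'' z hz).2 _ a1
      · exact List.map_congr_left fun z hz => key3 z (hl'' z hz).1 (hl'' z hz).2 _ a2

theorem ne_nil_of_length {l : List Y} {m : ℕ} (hl : l.length = m + 1) : l ≠ [] := by
  rintro rfl
  simp at hl

/-- At a point `x` which is not a branch point, `tr f` is the sum of the pullbacks along the two
local sections. -/
theorem tr_sub_LZat (h : BDC T F S F' ι p s) {x : X} (hx : x ∈ T) (hxF : x ∉ F) (m : ℕ)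
    (f : List X → R) :
    LZat S (m + 1) (tr ι s f - (pull (lf ι s x) f + pull (lf ι s (ι x)) f)) (p x) := by
  obtain ⟨U, hU, hU'⟩ := h.tr_local (R := R) hx hxF
  refine ⟨U, hU, fun l hl hl' => ?_⟩
  rw [Pi.sub_apply, Pi.add_apply, hU' l (ne_nil_of_length hl) hl' f]
  simp only [pull]
  ring

/-- The pullback along a local section of a cochain which is locally zero. -/
theorem LZat_pull_lf (h : BDC T F S F' ι p s) {x : X} (hx : x ∈ T) {m : ℕ} {f : List X → R}
    (hf : LZat T m f x) : LZat S m (pull (lf ι s x) f) (p x) :=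
  (by rw [h.lf_self hx]; exact hf : LZat T m f (lf ι s x (p x))).pull (h.lf_cont hx)
    fun _ hy => h.lf_mem x hy

/-- If `f` is locally zero at both lifts then its transfer is locally zero. -/
theorem LZat_tr (h : BDC T F S F' ι p s) {x : X} (hx : x ∈ T) {m : ℕ} {f : List X → R}
    (hf : LZat T (m + 1) f x) (hf' : LZat T (m + 1) f (ι x)) :
    LZat S (m + 1) (tr ι s f) (p x) := by
  by_cases hxF : x ∈ F
  · -- a branch point
    have hfix : ι x = x := (h.fixed x hx).2 hxF
    obtain ⟨V, hV, hV'⟩ := hf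
    have hyS := h.pmap.maps hx
    have hsx : s (p x) = x := by
      rcases h.fib x hx with h1 | h1
      · exact h1
      · rw [h1, hfix]
    -- both lifts of a point near `p x` are in `V`
    have hV2 : {z | z ∈ T → ι z ∈ V} ∈ 𝓝 x := by
      have h1 := (h.ιmap.cont x hx)
      rw [ContinuousWithinAt, hfix] at h1
      have h2 := h1 hV
      rw [mem_map, mem_nhdsWithin_iff_exists_mem_nhds_inter] at h2
      obtain ⟨W, hW, hW'⟩ := h2
      exact mem_of_superset hW fun z hz hzT => hW' ⟨hz, hzT⟩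
    obtain ⟨U, hU, hU'⟩ := h.near hx (inter_mem hV hV2)
    have hlift : ∀ y ∈ U, y ∈ S → s y ∈ V ∧ ι (s y) ∈ V := by
      intro y hy hyS
      rcases hU' y hy hyS with h3 | h3
      · exact ⟨h3.1, h3.2 (h.smaps hyS)⟩
      · refine ⟨?_, h3.1⟩
        have h4 := h3.2 (h.ιmap.maps (h.smaps hyS))
        rwa [h.ιι _ (h.smaps hyS)] at h4
    refine ⟨U, hU, fun l hl hl' => ?_⟩
    have hall : ∀ z, ∀ y ∈ l, lf ι s z y ∈ V ∧ lf ι s z y ∈ T := by
      intro z y hy
      refine ⟨?_, h.lf_mem z (hl' y hy).2⟩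
      have h5 := hlift y (hl' y hy).1 (hl' y hy).2
      rcases lf_or ι s z y with h6 | h6 <;> rw [h6]
      · exact h5.1
      · exact h5.2
    match l, hl with
    | y :: l, hl =>
      simp only [tr]
      have h7 := hlift y (hl' y (by simp)).1 (hl' y (by simp)).2
      have h8 := h.smaps (hl' y (by simp)).2
      rw [hV', hV', add_zero]
      · simpa using hl
      · intro z hz
        rcases List.mem_cons.1 hz with rfl | hz
        · exact ⟨h7.2, h.ιmap.maps h8⟩
        · obtain ⟨w, hw, rfl⟩ := List.mem_map.1 hz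
          exact hall _ w (by simp [hw])
      · simpa using hl
      · intro z hz
        rcases List.mem_cons.1 hz with rfl | hz
        · exact ⟨h7.1, h8⟩
        · obtain ⟨w, hw, rfl⟩ := List.mem_map.1 hz
          exact hall _ w (by simp [hw])
  · have h1 := h.tr_sub_LZat hx hxF m f
    have h2 := h.LZat_pull_lf hx hf
    have h3 := h.LZat_pull_lf (h.ιmap.maps hx) hf'
    rw [h.pι x hx] at h3
    have := h1.add (h2.add h3)
    rwa [sub_add_cancel] at this

/-- The pullback of the transfer is the sum over the orbit, at points which are not branch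
points. -/
theorem pull_tr_LZat (h : BDC T F S F' ι p s) {x : X} (hx : x ∈ T) (hxF : x ∉ F) (m : ℕ)
    (f : List X → R) :
    LZat T (m + 1) (pull p (tr ι s f) - (f + pull ι f)) x := by
  obtain ⟨U, hU, hU'⟩ := h.tr_local (R := R) hx hxF
  have hne : ι x ≠ x := fun h1 => hxF ((h.fixed x hx).1 h1)
  have hδ : 0 < dist x (ι x) := dist_pos.2 hne.symm
  have hcomm : dist (ι x) x = dist x (ι x) := dist_comm _ _
  have hx0 : dist x x < dist x (ι x) / 4 := by rw [dist_self]; positivity
  have hx1 : dist (ι x) (ι x) < dist (ι x) x / 4 := by rw [dist_self, hcomm]; positivity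
  have hev : ∀ᶠ z in 𝓝[T] x, p z ∈ U ∧ dist z x < dist x (ι x) / 4 ∧
      dist (ι z) (ι x) < dist x (ι x) / 4 := by
    have h1 := h.pmap.cont x hx hU
    have h2 := Metric.ball_mem_nhds x (show 0 < dist x (ι x) / 4 by positivity)
    have h3 := h.ιmap.cont x hx
      (Metric.ball_mem_nhds (ι x) (show 0 < dist x (ι x) / 4 by positivity))
    filter_upwards [h1, mem_nhdsWithin_of_mem_nhds h2, h3] with z a b c
    exact ⟨a, b, c⟩
  rw [eventually_nhdsWithin_iff] at hev
  refine ⟨_, hev, fun l hl hl' => ?_⟩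
  have h1 : ∀ y ∈ l, lf ι s x (p y) = y ∧ lf ι s (ι x) (p y) = ι y := by
    intro y hy
    obtain ⟨hy1, hyT⟩ := hl' y hy
    obtain ⟨_, b1, b2⟩ := hy1 hyT
    refine ⟨h.lf_eq hyT (closer hx0 b1 b2), ?_⟩
    have h4 := h.lf_eq (h.ιmap.maps hyT) (x := ι x)
    rw [h.pι y hyT, h.ιι y hyT] at h4
    apply h4
    rw [← hcomm] at b1 b2
    exact closer hx1 b2 b1
  have h2 := hU' (l.map p) (by simpa using ne_nil_of_length hl) (by
    intro y hy
    obtain ⟨z, hz, rfl⟩ := List.mem_map.1 hy
    obtain ⟨hz1, hzT⟩ := hl' z hz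
    exact ⟨(hz1 hzT).1, h.pmap.maps hzT⟩) f
  have h3 : (l.map p).map (lf ι s x) = l := by
    rw [List.map_map]
    conv_rhs => rw [← List.map_id l]
    exact List.map_congr_left fun y hy => (h1 y hy).1
  have h4 : (l.map p).map (lf ι s (ι x)) = l.map ι := by
    rw [List.map_map]
    exact List.map_congr_left fun y hy => (h1 y hy).2
  rw [h3, h4] at h2
  rw [Pi.sub_apply, Pi.add_apply]
  simp only [pull]
  rw [h2]
  ring

/-- The section restricted to the branch set. -/
theorem s_smap (h : BDC T F S F' ι p s) :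
    SMap IsCompact IsCompact (S ∩ F') (T ∩ F) s := by
  have hmaps : MapsTo s (S ∩ F') (T ∩ F) := fun y hy => by
    refine ⟨h.smaps hy.1, ?_⟩
    rw [← h.pF _ (h.smaps hy.1), h.ps y hy.1]
    exact hy.2
  refine ⟨fun y hy => (h.s_cont hy.1 hy.2).mono inter_subset_left, hmaps, fun K hK hKc => ?_⟩
  have h1 : S ∩ F' ∩ s ⁻¹' K = p '' K := by
    ext y
    constructor
    · rintro ⟨⟨hy, hyF⟩, hyK⟩
      exact ⟨s y, hyK, h.ps y hy⟩
    · rintro ⟨x, hx, rfl⟩
      obtain ⟨hxT, hxF⟩ := hK hx
      have hfix : ι x = x := (h.fixed x hxT).2 hxF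
      refine ⟨⟨h.pmap.maps hxT, (h.pF x hxT).2 hxF⟩, ?_⟩
      rw [mem_preimage]
      rcases h.fib x hxT with h2 | h2
      · rwa [h2]
      · rwa [h2, hfix]
  rw [h1]
  exact hKc.image_of_continuousOn (h.pmap.cont.mono fun x hx => (hK hx).1)

/-- **Transfer.** For every class `c` the class `c + ι^* c` is in the image of `p^*`. -/
theorem transfer (h : BDC T F S F' ι p s) (hT : Good IsCompact T) (hS : Good IsCompact S) (n : ℕ)
    (α : Hc R T n) : ∃ β : Hc R S n, h.pmap.map R n β = α + h.ιmap.map R n α := by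
  obtain ⟨c, hc, rfl⟩ := cls_surj α
  -- the restriction to the branch set
  have hcF : c ∈ cocycles R IsCompact (T ∩ F) n := by
    have := (SMap.incl IsCompact T F h.hF).pull_mem_cocycles hc
    have e : pull (fun x : X => x) c = c := by
      funext l
      simp [pull]
    rwa [e] at this
  have hb := h.s_smap.pull_mem_cocycles hcF
  obtain ⟨b, hbs, hbc, hbd⟩ := exists_extension h.hF' hS hb
  have hpb : HasSupp IsCompact T (n + 1) (pull p b) := h.pmap.hasSupp_pull hbs
  have hsp : ∀ x ∈ T ∩ F, s (p x) = x := by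
    rintro x ⟨hxT, hxF⟩
    rcases h.fib x hxT with h2 | h2
    · exact h2
    · rw [h2, (h.fixed x hxT).2 hxF]
  -- `c - p^* b` is a coboundary on the branch set
  have h1 : LZ (T ∩ F) (n + 1) (c - pull p b) := by
    have h2 : LZ (T ∩ F) (n + 1) (pull p (b - pull s c)) :=
      hbc.pull (h.pmap.cont.mono inter_subset_left) fun x hx =>
        ⟨h.pmap.maps hx.1, (h.pF x hx.1).2 hx.2⟩
    refine h2.neg.congr fun l _ hl => ?_
    rw [Pi.neg_apply, pull_sub, Pi.sub_apply, Pi.sub_apply]
    have h3 : pull p (pull s c) l = c l := by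
      simp only [pull, List.map_map]
      congr 1
      conv_rhs => rw [← List.map_id l]
      exact List.map_congr_left fun y hy => hsp y (hl y hy)
    rw [h3]
    ring
  obtain ⟨g, hg0, hgs, hgo⟩ := key_R h.hF hT (hc.1.sub hpb) (fun x hx => by
    rw [d_sub', d_pull']
    refine (hc.2 x hx.1).sub ?_
    exact (hbd _ ⟨h.pmap.maps hx.1, (h.pF x hx.1).2 hx.2⟩).pull (h.pmap.cont x hx.1)
      h.pmap.maps) h1.mem_coboundaries
  set o : List X → R := c - pull p b - d g with ho
  have hos : HasSupp IsCompact T (n + 1) o := (hc.1.sub hpb).sub hgs.d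
  have hdo : d o = d c - pull p (d b) := by
    rw [ho, d_sub', d_sub', d_d', d_pull', sub_zero]
  -- the cocycle on `S`
  set e : List Y → R := b + b + tr ι s o with he
  have hes : HasSupp IsCompact S (n + 1) e := by
    refine (hbs.add hbs).add ?_
    obtain ⟨K, hKT, hK, hKo⟩ := hos
    refine ⟨p '' K, image_subset_iff.2 fun x hx => h.pmap.maps (hKT hx),
      hK.image_of_continuousOn (h.pmap.cont.mono hKT), fun y hy hyK => ?_⟩
    have hsy := h.smaps hy
    have h5 := h.LZat_tr hsy (m := n) (f := o)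
      (hKo _ hsy fun h6 => hyK ⟨s y, h6, h.ps y hy⟩)
      (hKo _ (h.ιmap.maps hsy) fun h6 => hyK ⟨ι (s y), h6, by rw [h.pι _ hsy, h.ps y hy]⟩)
    rwa [h.ps y hy] at h5
  have hed : LZ S (n + 2) (d e) := by
    intro y hy
    have hsy := h.smaps hy
    by_cases hyF : y ∈ F'
    · have hsF : s y ∈ T ∩ F := ⟨hsy, by rw [← h.pF _ hsy, h.ps y hy]; exact hyF⟩
      have hfix : ι (s y) = s y := (h.fixed _ hsy).2 hsF.2
      have h5 := h.LZat_tr hsy (m := n) (f := o) (hgo _ hsF) (by rw [hfix]; exact hgo _ hsF)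
      rw [h.ps y hy] at h5
      rw [he, d_add', d_add']
      exact ((hbd y ⟨hy, hyF⟩).add (hbd y ⟨hy, hyF⟩)).add h5.d
    · have hsF : s y ∉ F := by rwa [← h.pF _ hsy, h.ps y hy]
      have h5 := (h.tr_sub_LZat hsy hsF n o).d
      rw [h.ps y hy, d_sub', d_add', d_pull', d_pull', hdo] at h5
      have h6 := h.LZat_pull_lf hsy (hc.2 _ hsy)
      have h7 := h.LZat_pull_lf (h.ιmap.maps hsy) (hc.2 _ (h.ιmap.maps hsy))
      rw [h.ps y hy] at h6
      rw [h.pι _ hsy, h.ps y hy] at h7
      have h8 := h5.add (h6.add h7)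
      refine h8.congr fun l _ hl => ?_
      have k1 : ∀ x, pull (lf ι s x) (pull p (d b)) l = d b l := by
        intro x
        simp only [pull, List.map_map]
        congr 1
        conv_rhs => rw [← List.map_id l]
        exact List.map_congr_left fun z hz => h.p_lf x (hl z hz)
      rw [he, d_add', d_add']
      simp only [Pi.add_apply, Pi.sub_apply, pull_sub, k1]
      ring
  have hec : e ∈ cocycles R IsCompact S n := ⟨hes, hed⟩
  refine ⟨cls e hec, ?_⟩
  rw [SMap.map_cls, SMap.map_cls, cls_add, cls_eq_iff]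
  -- the pullback of `e`
  have hgι : HasSupp IsCompact T n (g + pull ι g) := hgs.add (h.ιmap.hasSupp_pull hgs)
  refine ⟨-(g + pull ι g), fun hn => by simp [pull, hg0 hn], hgι.neg, fun x hx => ?_⟩
  have h9 : LZat T (n + 1) (pull p (tr ι s o) - (o + pull ι o)) x := by
    by_cases hxF : x ∈ F
    · have hfix : ι x = x := (h.fixed x hx).2 hxF
      have h5 := h.LZat_tr hx (m := n) (f := o) (hgo _ ⟨hx, hxF⟩)
        (by rw [hfix]; exact hgo _ ⟨hx, hxF⟩)
      refine (h5.pull (h.pmap.cont x hx) h.pmap.maps).sub ((hgo _ ⟨hx, hxF⟩).add ?_)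
      exact (by rw [hfix]; exact hgo _ ⟨hx, hxF⟩ : LZat T (n + 1) o (ι x)).pull
        (h.ιmap.cont x hx) h.ιmap.maps
    · exact h.pull_tr_LZat hx hxF n o
  refine h9.congr fun l _ hl => ?_
  have k1 : pull ι (pull p b) l = pull p b l := by
    simp only [pull, List.map_map]
    congr 1
    exact List.map_congr_left fun z hz => h.pι z (hl z hz)
  have k2 : pull ι o l = pull ι c l - pull p b l - d (pull ι g) l := by
    rw [← k1, d_pull']
    rfl
  have k3 : o l = c l - pull p b l - d g l := rfl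
  have k4 : pull p e l = pull p b l + pull p b l + pull p (tr ι s o) l := rfl
  simp only [Pi.sub_apply, Pi.add_apply, d_neg', d_add', Pi.neg_apply, k2, k3, k4]
  ring

end BDC

end Pool.Agent.Helper13.DS
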