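import Pool.Agent.Helper36.AS.Key

/-!
# The deck transformation of an infinite cyclic cover, compactly supported cohomology

`cov A θ = {(x, t) : x ∈ A, θ x = exp (i t)}` is the infinite cyclic cover of `A` given by
`θ : A → S¹`, `shift 1` the generator of its deck transformations. `wang`: if `Hc^(n+1)(A) = 0` then
`shift^* - 1` is injective on `Hc^(n+2)(cov A θ)`.

Proof. Let `c` be a cocycle and `shift^* c - c = d g`. The sum of all translates of `g` descends to a
cocycle `γ` of degree `n + 1` on `A` with compact support, so `γ = d φ`. Let `φ₋` be `φ` (pulled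
back to the cover) on the simplices whose first vertex has `t < 0`, and zero on the other ones,
and `g₊` the sum of the translates of `g` by nonnegative integers. Then `d g₊ = - c`, and
`w = g₊ - d φ₋` is locally zero for `t` large and for `t` very negative, so it has compact
support, and `d (-w) = c`.
-/

namespace Pool.Agent.Helper13.DS

open Set Filter Topology Pool.Agent.Helper36.AS

set_option linter.unusedSectionVars false

variable {X P R : Type*}

section General

variable [TopologicalSpace X] [CommRing R]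

theorem d_sum {ι : Type*} (s : Finset ι) (f : ι → List X → R) :
    d (∑ i ∈ s, f i) = ∑ i ∈ s, d (f i) := by
  classical
  induction s using Finset.induction_on with
  | empty => simp
  | insert a s ha ih => rw [Finset.sum_insert ha, Finset.sum_insert ha, d_add', ih]

theorem LZat_sum {ι : Type*} {T : Set X} {m : ℕ} {x : X} (s : Finset ι) (f : ι → List X → R)
    (h : ∀ i ∈ s, LZat T m (f i) x) : LZat T m (∑ i ∈ s, f i) x := by
  classical
  induction s using Finset.induction_on with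
  | empty => rw [Finset.sum_empty]; exact LZat.zero T m x
  | insert a s ha ih =>
    rw [Finset.sum_insert ha]
    exact (h a (by simp)).add (ih fun i hi => h i (by simp [hi]))

theorem ne_nil_of_len {l : List X} {m : ℕ} (hl : l.length = m + 1) : l ≠ [] := by
  rintro rfl
  simp at hl

end General

/-- The deck transformations. -/
noncomputable def shift (i : ℤ) (q : P × ℝ) : P × ℝ := (q.1, q.2 + i * (2 * Real.pi))

theorem shift_shift (i j : ℤ) (q : P × ℝ) : shift i (shift j q) = shift (j + i) q := by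
  simp only [shift, Prod.mk.injEq, true_and]
  push_cast
  ring

theorem map_shift_shift (i j : ℤ) (l : List (P × ℝ)) :
    (l.map (shift j)).map (shift i) = l.map (shift (j + i)) := by
  rw [List.map_map]
  exact List.map_congr_left fun q _ => shift_shift i j q

theorem shift_zero (q : P × ℝ) : shift 0 q = q := by simp [shift]

theorem map_shift_zero (l : List (P × ℝ)) : l.map (shift 0) = l := by
  conv_rhs => rw [← List.map_id l]
  exact List.map_congr_left fun q _ => shift_zero q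

/-- The infinite cyclic cover. -/
def cov (A : Set P) (θ : P → Circle) : Set (P × ℝ) := {q | q.1 ∈ A ∧ θ q.1 = Circle.exp q.2}

theorem shift_mem {A : Set P} {θ : P → Circle} {q : P × ℝ} (hq : q ∈ cov A θ) (i : ℤ) :
    shift i q ∈ cov A θ := by
  refine ⟨hq.1, ?_⟩
  rw [show (shift i q).1 = q.1 from rfl, hq.2, Circle.exp_eq_exp]
  exact ⟨-i, by simp [shift]⟩

section Sums

variable [CommRing R]

/-- `f` vanishes on the lists with a point outside of the window `|t| < L`. -/
def Win (L : ℝ) (f : List (P × ℝ) → R) : Prop := ∀ l : List (P × ℝ), (∃ q ∈ l, L ≤ |q.2|) → f l = 0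

/-- The sum of all translates. -/
noncomputable def Gf (f : List (P × ℝ) → R) (l : List (P × ℝ)) : R :=
  ∑ᶠ i : ℤ, f (l.map (shift i))

/-- The sum of the translates by nonnegative integers. -/
noncomputable def Gp (f : List (P × ℝ) → R) (l : List (P × ℝ)) : R :=
  ∑ᶠ i : ℕ, f (l.map (shift (i : ℤ)))

theorem win_far {L B : ℝ} {f : List (P × ℝ) → R} (hf : Win L f) {l : List (P × ℝ)} {q : P × ℝ}
    (hq : q ∈ l) (hB : |q.2| ≤ B) {I : ℕ} (hI : L + B ≤ I) {i : ℤ} (hi : (I : ℤ) < |i|) :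
    f (l.map (shift i)) = 0 := by
  apply hf
  refine ⟨shift i q, List.mem_map.2 ⟨q, hq, rfl⟩, ?_⟩
  have h1 : (I : ℝ) + 1 ≤ |(i : ℝ)| := by
    have : (I : ℤ) + 1 ≤ |i| := hi
    exact_mod_cast this
  have hpi := Real.pi_gt_three
  have h2 : |(i : ℝ) * (2 * Real.pi)| = |(i : ℝ)| * (2 * Real.pi) := by
    rw [abs_mul, abs_of_pos (by positivity : 0 < 2 * Real.pi)]
  have h3 : |(i : ℝ) * (2 * Real.pi)| ≤ |q.2 + i * (2 * Real.pi)| + |q.2| := by
    have := abs_sub_abs_le_abs_sub (i * (2 * Real.pi)) (-q.2)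
    rw [abs_neg, sub_neg_eq_add, add_comm _ q.2] at this
    linarith
  show L ≤ |q.2 + i * (2 * Real.pi)|
  rw [h2] at h3
  have h4 : ((I : ℝ) + 1) * (2 * Real.pi) ≤ |(i : ℝ)| * (2 * Real.pi) :=
    mul_le_mul_of_nonneg_right h1 (by positivity)
  have h5 : (I : ℝ) + 1 ≤ ((I : ℝ) + 1) * (2 * Real.pi) := by nlinarith [Nat.cast_nonneg (α := ℝ) I]
  linarith

theorem Gf_eq {L B : ℝ} {f : List (P × ℝ) → R} (hf : Win L f) {l : List (P × ℝ)} {q : P × ℝ}
    (hq : q ∈ l) (hB : |q.2| ≤ B) {I : ℕ} (hI : L + B ≤ I) :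
    Gf f l = ∑ i ∈ Finset.range (2 * I + 1), f (l.map (shift ((i : ℤ) - I))) := by
  classical
  unfold Gf
  rw [finsum_eq_finsetSum_of_support_subset (s := (Finset.range (2 * I + 1)).image
    fun i : ℕ => (i : ℤ) - I)]
  · rw [Finset.sum_image]
    intro a _ b _ hab
    simpa using hab
  · intro i hi
    rw [Function.mem_support] at hi
    have h1 : |i| ≤ I := by
      by_contra h2
      exact hi (win_far hf hq hB hI (not_le.1 h2))
    rw [abs_le] at h1
    simp only [Finset.coe_image, Finset.coe_range, mem_image, mem_Iio]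
    refine ⟨(i + I).toNat, ?_, ?_⟩
    · omega
    · rw [Int.toNat_of_nonneg (by omega)]
      ring

theorem Gp_eq {L B : ℝ} {f : List (P × ℝ) → R} (hf : Win L f) {l : List (P × ℝ)} {q : P × ℝ}
    (hq : q ∈ l) (hB : |q.2| ≤ B) {I : ℕ} (hI : L + B ≤ I) :
    Gp f l = ∑ i ∈ Finset.range (I + 1), f (l.map (shift (i : ℤ))) := by
  classical
  unfold Gp
  rw [finsum_eq_finsetSum_of_support_subset (s := Finset.range (I + 1))]
  intro i hi
  rw [Function.mem_support] at hi
  simp only [Finset.coe_range, mem_Iio]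
  by_contra h2
  refine hi (win_far hf hq hB hI ?_)
  rw [Nat.abs_cast]
  omega

/-- Invariance. -/
theorem Gf_shift (f : List (P × ℝ) → R) (l : List (P × ℝ)) (k : ℤ) :
    Gf f (l.map (shift k)) = Gf f l := by
  unfold Gf
  rw [← finsum_comp_equiv (Equiv.addLeft k) (f := fun i => f (l.map (shift i)))]
  apply finsum_congr
  intro i
  rw [map_shift_shift]
  rfl

/-- If all negative translates are zero, the two sums agree. -/
theorem Gf_eq_Gp {L B : ℝ} {f : List (P × ℝ) → R} (hf : Win L f) {l : List (P × ℝ)} {q : P × ℝ}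
    (hq : q ∈ l) (hB : |q.2| ≤ B) (hneg : ∀ i : ℤ, i < 0 → f (l.map (shift i)) = 0) :
    Gf f l = Gp f l := by
  classical
  obtain ⟨I, hI⟩ := exists_nat_ge (L + B)
  rw [Gp_eq hf hq hB hI]
  unfold Gf
  rw [finsum_eq_finsetSum_of_support_subset (s := (Finset.range (I + 1)).image
    fun i : ℕ => (i : ℤ))]
  · rw [Finset.sum_image]
    intro a _ b _ hab
    simpa using hab
  · intro i hi
    rw [Function.mem_support] at hi
    have h1 : |i| ≤ I := by
      by_contra h2
      exact hi (win_far hf hq hB hI (not_le.1 h2))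
    have h2 : 0 ≤ i := by
      by_contra h2
      exact hi (hneg i (not_le.1 h2))
    rw [abs_le] at h1
    simp only [Finset.coe_image, Finset.coe_range, mem_image, mem_Iio]
    exact ⟨i.toNat, by omega, Int.toNat_of_nonneg h2⟩

end Sums

section Loc

variable [MetricSpace P] [CommRing R]

theorem nhds_bound (q : P × ℝ) : {q' : P × ℝ | |q'.2| < |q.2| + 1} ∈ 𝓝 q := by
  apply IsOpen.mem_nhds
  · exact isOpen_lt (by fun_prop) continuous_const
  · show |q.2| < |q.2| + 1
    linarith

theorem Gf_LZat {L : ℝ} {f : List (P × ℝ) → R} (hf : Win L f) (T : Set (P × ℝ)) (q : P × ℝ) {I : ℕ}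
    (hI : L + (|q.2| + 1) ≤ I) (m : ℕ) :
    LZat T (m + 1) (Gf f - ∑ i ∈ Finset.range (2 * I + 1), pull (shift ((i : ℤ) - I)) f) q := by
  refine ⟨_, nhds_bound q, fun l hl hl' => ?_⟩
  obtain ⟨y, hy⟩ := List.exists_mem_of_ne_nil l (ne_nil_of_len hl)
  rw [Pi.sub_apply, Gf_eq hf hy (hl' y hy).1.le hI, Finset.sum_apply]
  simp only [pull]
  exact sub_self _

theorem Gp_LZat {L : ℝ} {f : List (P × ℝ) → R} (hf : Win L f) (T : Set (P × ℝ)) (q : P × ℝ) {I : ℕ}
    (hI : L + (|q.2| + 1) ≤ I) (m : ℕ) :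
    LZat T (m + 1) (Gp f - ∑ i ∈ Finset.range (I + 1), pull (shift (i : ℤ)) f) q := by
  refine ⟨_, nhds_bound q, fun l hl hl' => ?_⟩
  obtain ⟨y, hy⟩ := List.exists_mem_of_ne_nil l (ne_nil_of_len hl)
  rw [Pi.sub_apply, Gp_eq hf hy (hl' y hy).1.le hI, Finset.sum_apply]
  simp only [pull]
  exact sub_self _

theorem continuous_shift (i : ℤ) : Continuous (shift (P := P) i) := by
  unfold shift
  fun_prop

theorem far_LZat {L : ℝ} {f : List (P × ℝ) → R} (hf : Win L f) (T : Set (P × ℝ)) (q : P × ℝ) {I : ℕ}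
    (hI : L + (|q.2| + 1) ≤ I) (m : ℕ) {i : ℤ} (hi : (I : ℤ) < |i|) :
    LZat T (m + 1) (pull (shift i) f) q := by
  refine ⟨_, nhds_bound q, fun l hl hl' => ?_⟩
  obtain ⟨y, hy⟩ := List.exists_mem_of_ne_nil l (ne_nil_of_len hl)
  exact win_far hf hy (hl' y hy).1.le hI hi

variable {A : Set P} {θ : P → Circle}

theorem LZat_shift {f : List (P × ℝ) → R} {m : ℕ} {q : P × ℝ} {i : ℤ}
    (h : LZat (cov A θ) m f (shift i q)) : LZat (cov A θ) m (pull (shift i) f) q :=
  h.pull (continuous_shift i).continuousWithinAt fun _ hq => shift_mem hq i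

theorem telescope (c : List (P × ℝ) → R) (k : ℤ) (n : ℕ) :
    ∑ i ∈ Finset.range n, (pull (shift ((i : ℤ) + k + 1)) c - pull (shift ((i : ℤ) + k)) c) =
      pull (shift ((n : ℤ) + k)) c - pull (shift k) c := by
  have h := Finset.sum_range_sub (fun i : ℕ => pull (shift ((i : ℤ) + k)) c) n
  rw [show ((0 : ℕ) : ℤ) + k = k by simp] at h
  rw [← h]
  refine Finset.sum_congr rfl fun i _ => ?_
  have : (((i + 1 : ℕ) : ℤ) + k) = (i : ℤ) + k + 1 := by push_cast; ring
  rw [this]

/-- The coboundary of the sums. -/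
theorem pull_shift_dg {c g : List (P × ℝ) → R} {m : ℕ}
    (h : LZ (cov A θ) m (pull (shift 1) c - c - d g)) {q : P × ℝ} (hq : q ∈ cov A θ) (i : ℤ) :
    LZat (cov A θ) m (d (pull (shift i) g) - (pull (shift (i + 1)) c - pull (shift i) c)) q := by
  have h1 := LZat_shift (i := i) (h _ (shift_mem hq i))
  refine h1.neg.congr fun l _ _ => ?_
  simp only [Pi.sub_apply, Pi.neg_apply, pull_sub, d_pull', pull, map_shift_shift]
  ring

theorem d_Gp {L : ℝ} {c g : List (P × ℝ) → R} (hc : Win L c) (hg : Win L g) {m : ℕ}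
    (h : LZ (cov A θ) (m + 2) (pull (shift 1) c - c - d g)) :
    LZ (cov A θ) (m + 2) (d (Gp g) + c) := by
  intro q hq
  obtain ⟨I, hI⟩ := exists_nat_ge (L + (|q.2| + 1))
  have h1 := (Gp_LZat hg (cov A θ) q hI m).d
  rw [d_sub', d_sum] at h1
  have h2 : LZat (cov A θ) (m + 2) (∑ i ∈ Finset.range (I + 1),
      (d (pull (shift (i : ℤ)) g) - (pull (shift ((i : ℤ) + 1)) c - pull (shift (i : ℤ)) c))) q :=
    LZat_sum _ _ fun i _ => pull_shift_dg h hq i
  rw [Finset.sum_sub_distrib] at h2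
  have h3 := telescope c 0 (I + 1)
  simp only [add_zero] at h3
  rw [h3] at h2
  have h4 : LZat (cov A θ) (m + 2) (pull (shift ((I + 1 : ℕ) : ℤ)) c) q :=
    far_LZat hc _ q hI (m + 1) (by rw [Nat.abs_cast]; omega)
  have h5 := (h1.add h2).add h4
  refine h5.congr fun l _ _ => ?_
  have h6 : pull (shift 0) c l = c l := by simp [pull, map_shift_zero]
  simp only [Pi.add_apply, Pi.sub_apply, h6]
  ring

theorem d_Gf {L : ℝ} {c g : List (P × ℝ) → R} (hc : Win L c) (hg : Win L g) {m : ℕ}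
    (h : LZ (cov A θ) (m + 2) (pull (shift 1) c - c - d g)) :
    LZ (cov A θ) (m + 2) (d (Gf g)) := by
  intro q hq
  obtain ⟨I, hI⟩ := exists_nat_ge (L + (|q.2| + 1))
  -- a larger window, so that both ends are far
  have hI' : L + (|q.2| + 1) ≤ ((I + 1 : ℕ) : ℝ) := by push_cast; linarith
  have h1 := (Gf_LZat hg (cov A θ) q hI' m).d
  rw [d_sub', d_sum] at h1
  have h2 : LZat (cov A θ) (m + 2) (∑ i ∈ Finset.range (2 * (I + 1) + 1),
      (d (pull (shift ((i : ℤ) - (I + 1 : ℕ))) g) -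
        (pull (shift ((i : ℤ) - (I + 1 : ℕ) + 1)) c - pull (shift ((i : ℤ) - (I + 1 : ℕ))) c))) q :=
    LZat_sum _ _ fun i _ => pull_shift_dg h hq _
  rw [Finset.sum_sub_distrib] at h2
  have h3 := telescope c (-(I + 1 : ℕ)) (2 * (I + 1) + 1)
  simp only [← sub_eq_add_neg] at h3
  rw [h3] at h2
  have h4 : LZat (cov A θ) (m + 2)
      (pull (shift (((2 * (I + 1) + 1 : ℕ) : ℤ) - (I + 1 : ℕ))) c) q :=
    far_LZat hc _ q hI (m + 1) (by rw [abs_of_nonneg] <;> push_cast <;> omega)
  have h4' : LZat (cov A θ) (m + 2) (pull (shift (-((I + 1 : ℕ) : ℤ))) c) q :=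
    far_LZat hc _ q hI (m + 1) (by rw [abs_neg, Nat.abs_cast]; omega)
  have h5 := (h1.add h2).add (h4.sub h4')
  refine h5.congr fun l _ _ => ?_
  simp only [Pi.add_apply, Pi.sub_apply]
  ring

/-! ### Lifting simplices -/

/-- The lift of `x` with angle close to `t`. -/
noncomputable def lift (θ : P → Circle) (t : ℝ) (x : P) : P × ℝ :=
  (x, t + Complex.arg (θ x / Circle.exp t : Circle))

theorem lift_mem {x : P} (hx : x ∈ A) (t : ℝ) : lift θ t x ∈ cov A θ := by
  refine ⟨hx, ?_⟩
  show θ x = Circle.exp (t + _)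
  rw [Circle.exp_add, Circle.exp_arg]
  simp

theorem lift_eq {q : P × ℝ} (hq : q ∈ cov A θ) {t : ℝ} (ht : |q.2 - t| < Real.pi) :
    lift θ t q.1 = q := by
  refine Prod.ext rfl ?_
  show t + Complex.arg (θ q.1 / Circle.exp t : Circle) = q.2
  rw [hq.2, ← Circle.exp_sub, Circle.arg_exp]
  · ring
  · linarith [(abs_lt.1 ht).1]
  · linarith [(abs_lt.1 ht).2]

theorem lift_self {x : P} {t : ℝ} (h : θ x = Circle.exp t) : lift θ t x = (x, t) := by
  refine Prod.ext rfl ?_
  show t + Complex.arg (θ x / Circle.exp t : Circle) = t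
  rw [h, div_self']
  simp

theorem lift_cont (hθ : ContinuousOn θ A) {x : P} (hx : x ∈ A) {t : ℝ} (h : θ x = Circle.exp t) :
    ContinuousWithinAt (lift θ t) A x := by
  have h1 : ContinuousWithinAt (fun y => (θ y / Circle.exp t : Circle)) A x :=
    (hθ x hx).div_const _
  have h2 : ContinuousWithinAt (fun y => ((θ y / Circle.exp t : Circle) : ℂ)) A x :=
    continuous_subtype_val.continuousAt.comp_continuousWithinAt h1
  have h3 : ContinuousAt Complex.arg (((θ x / Circle.exp t : Circle) : ℂ)) := by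
    apply Complex.continuousAt_arg
    rw [h, div_self']
    simp
  have h4 : ContinuousWithinAt (fun y => Complex.arg ((θ y / Circle.exp t : Circle) : ℂ)) A x :=
    ContinuousAt.comp_continuousWithinAt (f := fun y => ((θ y / Circle.exp t : Circle) : ℂ)) h3 h2
  exact continuousWithinAt_id.prodMk (continuousWithinAt_const.add h4)

/-- Changing the base angle by the angle of the first point amounts to a deck transformation. -/
theorem exists_shift (hθ : ContinuousOn θ A) {x : P} (hx : x ∈ A) {t : ℝ}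
    (h : θ x = Circle.exp t) :
    ∃ U ∈ 𝓝 x, ∀ l : List P, (∀ y ∈ l, y ∈ U ∧ y ∈ A) → ∀ y₀ ∈ l, ∃ k : ℤ,
      l.map (lift θ (Complex.arg (θ y₀ : ℂ))) = (l.map (lift θ t)).map (shift k) := by
  have h1 := lift_cont hθ hx h
  have h2 : ∀ᶠ y in 𝓝[A] x, |(lift θ t y).2 - t| < Real.pi / 2 := by
    have h3 : ContinuousWithinAt (fun y => |(lift θ t y).2 - t|) A x :=
      ((continuous_snd.continuousAt.comp_continuousWithinAt h1).sub continuousWithinAt_const).abs
    have h4 : |(lift θ t x).2 - t| < Real.pi / 2 := by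
      rw [lift_self h]
      simp [Real.pi_pos]
    exact h3.eventually_lt continuousWithinAt_const h4
  rw [eventually_nhdsWithin_iff] at h2
  refine ⟨_, h2, fun l hl y₀ hy₀ => ?_⟩
  have hy₀A := (hl y₀ hy₀).2
  have hb₀ := (hl y₀ hy₀).1 hy₀A
  have hm₀ : lift θ t y₀ ∈ cov A θ := lift_mem hy₀A t
  -- the angle of the first point
  have h5 : Circle.exp (Complex.arg (θ y₀ : ℂ)) = Circle.exp (lift θ t y₀).2 := by
    rw [Circle.exp_arg]
    exact hm₀.2
  obtain ⟨k, hk⟩ := Circle.exp_eq_exp.1 h5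
  refine ⟨k, ?_⟩
  rw [List.map_map]
  refine List.map_congr_left fun y hy => ?_
  have hyA := (hl y hy).2
  have hb := (hl y hy).1 hyA
  have hm : shift k (lift θ t y) ∈ cov A θ := shift_mem (lift_mem hyA t) k
  have h6 := lift_eq hm (t := Complex.arg (θ y₀ : ℂ)) (by
    show |(lift θ t y).2 + k * (2 * Real.pi) - _| < _
    rw [hk]
    have : (lift θ t y).2 + k * (2 * Real.pi) - ((lift θ t y₀).2 + k * (2 * Real.pi)) =
        ((lift θ t y).2 - t) - ((lift θ t y₀).2 - t) := by ring
    rw [this]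
    have := abs_sub ((lift θ t y).2 - t) ((lift θ t y₀).2 - t)
    linarith)
  exact h6

/-- The descent of the sum of all translates. -/
noncomputable def desc (θ : P → Circle) (g : List (P × ℝ) → R) : List P → R
  | [] => 0
  | x :: l => Gf g ((x :: l).map (lift θ (Complex.arg (θ x : ℂ))))

theorem desc_LZat (hθ : ContinuousOn θ A) {x : P} (hx : x ∈ A) {t : ℝ}
    (h : θ x = Circle.exp t) (g : List (P × ℝ) → R) (m : ℕ) :
    LZat A (m + 1) (desc θ g - pull (lift θ t) (Gf g)) x := by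
  obtain ⟨U, hU, hU'⟩ := exists_shift hθ hx h
  refine ⟨U, hU, fun l hl hl' => ?_⟩
  match l, hl with
  | y :: l, _ =>
    obtain ⟨k, hk⟩ := hU' (y :: l) hl' y (by simp)
    rw [Pi.sub_apply]
    simp only [desc, pull]
    rw [hk, Gf_shift, sub_self]

theorem pull_desc_LZat (hθ : ContinuousOn θ A) {q : P × ℝ} (hq : q ∈ cov A θ)
    (g : List (P × ℝ) → R) (m : ℕ) :
    LZat (cov A θ) (m + 1) (pull Prod.fst (desc θ g) - Gf g) q := by
  have h1 := (desc_LZat hθ hq.1 hq.2 g m).pull (φ := Prod.fst) (A := cov A θ)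
    continuous_fst.continuousWithinAt fun _ h => h.1
  have h2 : {q' : P × ℝ | |q'.2 - q.2| < Real.pi} ∈ 𝓝 q := by
    apply IsOpen.mem_nhds
    · exact isOpen_lt (by fun_prop) continuous_const
    · show |q.2 - q.2| < Real.pi
      simp [Real.pi_pos]
  have h3 : LZat (cov A θ) (m + 1)
      (pull Prod.fst (pull (lift θ q.2) (Gf g)) - Gf g) q := by
    refine ⟨_, h2, fun l _ hl' => ?_⟩
    rw [Pi.sub_apply]
    simp only [pull]
    have : (l.map Prod.fst).map (lift θ q.2) = l := by
      rw [List.map_map]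
      conv_rhs => rw [← List.map_id l]
      exact List.map_congr_left fun y hy => lift_eq (hl' y hy).2 (hl' y hy).1
    rw [this, sub_self]
  have h4 := h1.add h3
  refine h4.congr fun l _ _ => ?_
  simp only [Pi.add_apply, Pi.sub_apply, pull_sub]
  ring

theorem Gf_LZat_of {L : ℝ} {g : List (P × ℝ) → R} (hg : Win L g) {q : P × ℝ} {m : ℕ}
    (h : ∀ i : ℤ, LZat (cov A θ) (m + 1) g (shift i q)) : LZat (cov A θ) (m + 1) (Gf g) q := by
  obtain ⟨I, hI⟩ := exists_nat_ge (L + (|q.2| + 1))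
  have h1 := Gf_LZat hg (cov A θ) q hI m
  have h2 : LZat (cov A θ) (m + 1)
      (∑ i ∈ Finset.range (2 * I + 1), pull (shift ((i : ℤ) - I)) g) q :=
    LZat_sum _ _ fun i _ => LZat_shift (h _)
  have := h1.add h2
  rwa [sub_add_cancel] at this

theorem Gp_LZat_of {L : ℝ} {g : List (P × ℝ) → R} (hg : Win L g) {q : P × ℝ} {m : ℕ}
    (h : ∀ i : ℤ, LZat (cov A θ) (m + 1) g (shift i q)) : LZat (cov A θ) (m + 1) (Gp g) q := by
  obtain ⟨I, hI⟩ := exists_nat_ge (L + (|q.2| + 1))
  have h1 := Gp_LZat hg (cov A θ) q hI m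
  have h2 : LZat (cov A θ) (m + 1)
      (∑ i ∈ Finset.range (I + 1), pull (shift (i : ℤ)) g) q :=
    LZat_sum _ _ fun i _ => LZat_shift (h _)
  have := h1.add h2
  rwa [sub_add_cancel] at this

/-- The descended cochain is a cocycle with compact support. -/
theorem desc_mem {L : ℝ} (hθ : ContinuousOn θ A) {c g : List (P × ℝ) → R} (hc : Win L c)
    (hg : Win L g) {n : ℕ} (hgs : HasSupp IsCompact (cov A θ) (n + 1) g)
    (h : LZ (cov A θ) (n + 2) (pull (shift 1) c - c - d g)) :
    desc θ g ∈ cocycles R IsCompact A n := by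
  constructor
  · obtain ⟨K, hKC, hK, hKg⟩ := hgs
    refine ⟨Prod.fst '' K, ?_, hK.image continuous_fst, fun x hx hxK => ?_⟩
    · rintro _ ⟨q, hq, rfl⟩
      exact (hKC hq).1
    · have ht : θ x = Circle.exp (Complex.arg (θ x : ℂ)) := (Circle.exp_arg _).symm
      have hq : ((x, Complex.arg (θ x : ℂ)) : P × ℝ) ∈ cov A θ := ⟨hx, ht⟩
      have h1 := Gf_LZat_of hg (q := (x, Complex.arg (θ x : ℂ))) (m := n) (A := A) (θ := θ)
        fun i => hKg _ (shift_mem hq i) fun h2 => hxK ⟨_, h2, rfl⟩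
      have h2 : LZat A (n + 1) (pull (lift θ (Complex.arg (θ x : ℂ))) (Gf g)) x :=
        (by rw [lift_self ht]; exact h1 : LZat (cov A θ) (n + 1) (Gf g)
          (lift θ (Complex.arg (θ x : ℂ)) x)).pull (lift_cont hθ hx ht) fun y hy => lift_mem hy _
      have h3 := (desc_LZat hθ hx ht g n).add h2
      rwa [sub_add_cancel] at h3
  · intro x hx
    have ht : θ x = Circle.exp (Complex.arg (θ x : ℂ)) := (Circle.exp_arg _).symm
    have hq : ((x, Complex.arg (θ x : ℂ)) : P × ℝ) ∈ cov A θ := ⟨hx, ht⟩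
    have h1 := d_Gf hc hg h _ hq
    have h2 : LZat A (n + 2) (pull (lift θ (Complex.arg (θ x : ℂ))) (d (Gf g))) x :=
      (by rw [lift_self ht]; exact h1 : LZat (cov A θ) (n + 2) (d (Gf g))
        (lift θ (Complex.arg (θ x : ℂ)) x)).pull (lift_cont hθ hx ht) fun y hy => lift_mem hy _
    have h3 := (desc_LZat hθ hx ht g n).d
    rw [d_sub', d_pull'] at h3
    have h4 := h3.add h2
    rwa [sub_add_cancel] at h4

/-- `φ` on the simplices whose first vertex has `t < 0`. -/
noncomputable def neg (φ : List P → R) : List (P × ℝ) → R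
  | [] => 0
  | q :: l => by
    classical
    exact if q.2 < 0 then φ ((q :: l).map Prod.fst) else 0

theorem neg_LZat_pos {φ : List P → R} {q : P × ℝ} (hq : 0 < q.2) (T : Set (P × ℝ)) (m : ℕ) :
    LZat T m (neg φ) q := by
  refine ⟨{q' | 0 < q'.2}, (isOpen_lt continuous_const continuous_snd).mem_nhds hq,
    fun l _ hl' => ?_⟩
  match l with
  | [] => rfl
  | y :: l =>
    simp only [neg]
    exact if_neg (not_lt.2 (le_of_lt (hl' y (by simp)).1))

theorem neg_LZat_neg {φ : List P → R} {q : P × ℝ} (hq : q.2 < 0) (T : Set (P × ℝ)) (m : ℕ) :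
    LZat T (m + 1) (neg φ - pull Prod.fst φ) q := by
  refine ⟨{q' | q'.2 < 0}, (isOpen_lt continuous_snd continuous_const).mem_nhds hq,
    fun l hl hl' => ?_⟩
  match l, hl with
  | y :: l, _ =>
    rw [Pi.sub_apply]
    simp only [neg, pull]
    have hy0 : y.2 < 0 := (hl' y (by simp)).1
    rw [if_pos hy0, sub_self]

theorem neg_LZat {φ : List P → R} {q : P × ℝ} {m : ℕ} (h : LZat A m φ q.1) :
    LZat (cov A θ) m (neg φ) q := by
  obtain ⟨U, hU, hU'⟩ := h.pull (φ := Prod.fst) (A := cov A θ)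
    continuous_fst.continuousWithinAt fun _ h => h.1
  refine ⟨U, hU, fun l hl hl' => ?_⟩
  match l, hl with
  | [], _ => rfl
  | y :: l, hl =>
    simp only [neg]
    split_ifs
    · exact hU' (y :: l) hl hl'
    · rfl

theorem isCompact_cov (hθ : ContinuousOn θ A) {K : Set P} (hK : IsCompact K) (hKA : K ⊆ A)
    (L : ℝ) : IsCompact {q : P × ℝ | q ∈ cov A θ ∧ q.1 ∈ K ∧ |q.2| ≤ L} := by
  have h1 : IsCompact (K ×ˢ Icc (-L) L) := hK.prod isCompact_Icc
  have h2 : {q : P × ℝ | q ∈ cov A θ ∧ q.1 ∈ K ∧ |q.2| ≤ L} =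
      (K ×ˢ Icc (-L) L) ∩ {q | θ q.1 = Circle.exp q.2} := by
    ext q
    simp only [cov, mem_ofPred_eq, mem_inter_iff, mem_prod, mem_Icc, abs_le]
    constructor
    · rintro ⟨⟨_, a⟩, b, c⟩
      exact ⟨⟨b, c⟩, a⟩
    · rintro ⟨⟨b, c⟩, a⟩
      exact ⟨⟨hKA b, a⟩, b, c⟩
  rw [h2]
  have hc1 : ContinuousOn (fun q : P × ℝ => θ q.1) (K ×ˢ Icc (-L) L) :=
    hθ.comp continuous_fst.continuousOn fun q hq => hKA hq.1
  have hc2 : ContinuousOn (fun q : P × ℝ => Circle.exp q.2) (K ×ˢ Icc (-L) L) :=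
    (Circle.exp.continuous.comp continuous_snd).continuousOn
  have h3 : ContinuousOn (fun q : P × ℝ => ((θ q.1, Circle.exp q.2) : Circle × Circle))
      (K ×ˢ Icc (-L) L) := hc1.prodMk hc2
  have h4 := h3.preimage_isClosed_of_isClosed h1.isClosed
    (isClosed_diagonal (X := Circle))
  have h5 : (K ×ˢ Icc (-L) L) ∩ {q | θ q.1 = Circle.exp q.2} =
      (K ×ˢ Icc (-L) L) ∩
        (fun q : P × ℝ => ((θ q.1, Circle.exp q.2) : Circle × Circle)) ⁻¹' diagonal Circle := by
    ext q
    simp [mem_diagonal_iff]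
  rw [h5]
  exact h1.of_isClosed_subset h4 inter_subset_left

theorem shift_smap (i : ℤ) : SMap IsCompact IsCompact (cov A θ) (cov A θ) (shift i) := by
  refine ⟨(continuous_shift i).continuousOn, fun q hq => shift_mem hq i, fun K hK hKc => ?_⟩
  have h1 : cov A θ ∩ shift i ⁻¹' K = shift (-i) '' K := by
    ext q
    constructor
    · rintro ⟨_, hq⟩
      exact ⟨shift i q, hq, by rw [shift_shift, add_neg_cancel, shift_zero]⟩
    · rintro ⟨q, hq, rfl⟩
      refine ⟨shift_mem (hK hq) _, ?_⟩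
      rw [mem_preimage, shift_shift, neg_add_cancel, shift_zero]
      exact hq
  rw [h1]
  exact hKc.image (continuous_shift _)

theorem cut_win {L : ℝ} {f : List (P × ℝ) → R} : Win L (cut {q | |q.2| < L} f) := by
  rintro l ⟨q, hq, hL⟩
  exact cut_of_not fun h => absurd (h q hq) (not_lt.2 hL)

theorem cut_LZ {L : ℝ} {T K : Set (P × ℝ)} {f : List (P × ℝ) → R} {m : ℕ}
    (hK : ∀ q ∈ K, |q.2| < L) (hf : ∀ q ∈ T, q ∉ K → LZat T m f q) :
    LZ T m (cut {q | |q.2| < L} f - f) := by
  intro q hq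
  by_cases hqK : q ∈ K
  · refine LZat.cut_sub_self ?_ m f
    exact (isOpen_lt (by fun_prop) continuous_const).mem_nhds (hK q hqK)
  · exact ((hf q hq hqK).cut _).sub (hf q hq hqK)

theorem exists_window {K : Set (P × ℝ)} (hK : IsCompact K) : ∃ L : ℝ, ∀ q ∈ K, |q.2| < L := by
  obtain ⟨B, hB⟩ := (hK.image (show Continuous fun q : P × ℝ => |q.2| by fun_prop)).bddAbove
  exact ⟨B + 1, fun q hq => by
    have : |q.2| ≤ B := hB ⟨q, hq, rfl⟩
    linarith⟩

/-- The main step. -/
theorem wang_aux (hθ : ContinuousOn θ A) {n : ℕ} (h0 : Subsingleton (Hc R A (n + 1)))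
    {L : ℝ} (hL : 0 ≤ L) {c g : List (P × ℝ) → R} (hc : Win L c) (hg : Win L g)
    (hgs : HasSupp IsCompact (cov A θ) (n + 2) g)
    (h : LZ (cov A θ) (n + 3) (pull (shift 1) c - c - d g)) :
    c ∈ coboundaries R IsCompact (cov A θ) (n + 2) := by
  have hγ := desc_mem hθ hc hg hgs h
  have hγ0 : cls (desc θ g) hγ = 0 := Subsingleton.elim _ _
  rw [cls_eq_zero_iff] at hγ0
  obtain ⟨φ, -, hφs, hφ⟩ := hγ0
  obtain ⟨K₁, hK₁C, hK₁, hK₁g⟩ := hgs
  obtain ⟨K₂, hK₂A, hK₂, hK₂φ⟩ := hφs
  set K : Set P := Prod.fst '' K₁ ∪ K₂ with hKdef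
  have hKA : K ⊆ A := by
    rintro x (⟨q, hq, rfl⟩ | hx)
    · exact (hK₁C hq).1
    · exact hK₂A hx
  have hKc : IsCompact K := (hK₁.image continuous_fst).union hK₂
  set w : List (P × ℝ) → R := Gp g - d (neg φ) with hw
  have hws : HasSupp IsCompact (cov A θ) (n + 2) w := by
    refine ⟨_, fun q hq => hq.1, isCompact_cov hθ hKc hKA (L + 1), fun q hq hqK => ?_⟩
    by_cases hqK1 : q.1 ∈ K
    · have h1 : L + 1 < |q.2| := by
        by_contra h2
        exact hqK ⟨hq, hqK1, not_lt.1 h2⟩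
      rcases le_or_gt 0 q.2 with hpos | hneg
      · -- far up
        rw [abs_of_nonneg hpos] at h1
        have h2 : LZat (cov A θ) (n + 2) (Gp g) q := by
          refine ⟨{q' | L < q'.2}, (isOpen_lt continuous_const continuous_snd).mem_nhds
            (by show L < q.2; linarith), fun l hl hl' => ?_⟩
          obtain ⟨y, hy⟩ := List.exists_mem_of_ne_nil l (ne_nil_of_len hl)
          have hyL : L < y.2 := (hl' y hy).1
          unfold Gp
          refine finsum_eq_zero_of_forall_eq_zero fun i => ?_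
          apply hg
          refine ⟨shift i y, List.mem_map.2 ⟨y, hy, rfl⟩, ?_⟩
          show L ≤ |y.2 + ((i : ℤ) : ℝ) * (2 * Real.pi)|
          have h3 : 0 ≤ ((i : ℤ) : ℝ) * (2 * Real.pi) := by
            have := Real.pi_pos
            positivity
          rw [abs_of_nonneg (by linarith)]
          linarith
        exact h2.sub (neg_LZat_pos (by linarith) _ _).d
      · -- far down
        rw [abs_of_neg hneg] at h1
        have h2 : LZat (cov A θ) (n + 2) (Gf g - Gp g) q := by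
          refine ⟨{q' | q'.2 < -L}, (isOpen_lt continuous_snd continuous_const).mem_nhds
            (by show q.2 < -L; linarith), fun l hl hl' => ?_⟩
          obtain ⟨y, hy⟩ := List.exists_mem_of_ne_nil l (ne_nil_of_len hl)
          have hyL : y.2 < -L := (hl' y hy).1
          rw [Pi.sub_apply, Gf_eq_Gp hg hy le_rfl, sub_self]
          intro i hi
          apply hg
          refine ⟨shift i y, List.mem_map.2 ⟨y, hy, rfl⟩, ?_⟩
          show L ≤ |y.2 + (i : ℝ) * (2 * Real.pi)|
          have h3 : (i : ℝ) * (2 * Real.pi) ≤ 0 := by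
            have := Real.pi_pos
            have hi' : (i : ℝ) ≤ 0 := by exact_mod_cast hi.le
            exact mul_nonpos_of_nonpos_of_nonneg hi' (by positivity)
          rw [abs_of_neg (by linarith)]
          linarith
        have h3 := pull_desc_LZat hθ hq g (n + 1)
        have h4 : LZat (cov A θ) (n + 2) (pull Prod.fst (desc θ g - d φ)) q :=
          (hφ _ hq.1).pull continuous_fst.continuousWithinAt fun _ h => h.1
        have h5 := (neg_LZat_neg (φ := φ) hneg (cov A θ) n).d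
        rw [d_sub', d_pull'] at h5
        have h6 := ((h2.add h3).sub h4).add h5
        refine h6.neg.congr fun l _ _ => ?_
        simp only [hw, Pi.add_apply, Pi.sub_apply, Pi.neg_apply, pull_sub]
        ring
    · have h1 : LZat (cov A θ) (n + 2) (Gp g) q :=
        Gp_LZat_of hg fun i => hK₁g _ (shift_mem hq i) fun h2 => hqK1 (Or.inl ⟨_, h2, rfl⟩)
      have h2 : LZat (cov A θ) (n + 1) (neg φ) q :=
        neg_LZat (hK₂φ _ hq.1 fun h2 => hqK1 (Or.inr h2))
      exact h1.sub h2.d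
  refine ⟨-w, nofun, hws.neg, ?_⟩
  have h1 := d_Gp hc hg h
  refine h1.congr fun l _ _ => ?_
  have : d w = d (Gp g) := by rw [hw, d_sub', d_d', sub_zero]
  simp only [d_neg', Pi.sub_apply, Pi.neg_apply, Pi.add_apply, this]
  ring

/-- **Wang**: if `Hc^(n+1)` of the base is zero then `shift^* - 1` is injective on `Hc^(n+2)` of the
infinite cyclic cover. -/
theorem wang (hθ : ContinuousOn θ A) {n : ℕ} (h0 : Subsingleton (Hc R A (n + 1)))
    (α : Hc R (cov A θ) (n + 2)) (hα : (shift_smap (A := A) (θ := θ) 1).map R (n + 2) α = α) :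
    α = 0 := by
  obtain ⟨c, hc, rfl⟩ := cls_surj α
  rw [SMap.map_cls, cls_eq_iff] at hα
  obtain ⟨g, -, hgs, hcg⟩ := hα
  obtain ⟨K₁, hK₁C, hK₁, hK₁c⟩ := hc.1
  obtain ⟨K₂, hK₂C, hK₂, hK₂g⟩ := hgs
  obtain ⟨L₁, hL₁⟩ := exists_window hK₁
  obtain ⟨L₂, hL₂⟩ := exists_window hK₂
  set L : ℝ := max (max L₁ L₂) 0 with hL
  have e1 : LZ (cov A θ) (n + 3) (cut {q | |q.2| < L} c - c) :=
    cut_LZ (K := K₁) (fun q hq => (hL₁ q hq).trans_le
      ((le_max_left _ _).trans (le_max_left _ _))) hK₁c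
  have e2 : LZ (cov A θ) (n + 2) (cut {q | |q.2| < L} g - g) :=
    cut_LZ (K := K₂) (fun q hq => (hL₂ q hq).trans_le
      ((le_max_right _ _).trans (le_max_left _ _))) hK₂g
  have e3 : LZ (cov A θ) (n + 3) (pull (shift 1) (cut {q | |q.2| < L} c - c)) :=
    e1.pull (continuous_shift 1).continuousOn fun q hq => shift_mem hq 1
  have hgs' : HasSupp IsCompact (cov A θ) (n + 2) (cut {q | |q.2| < L} g) := by
    refine ⟨K₂, hK₂C, hK₂, fun q hq hq' => ?_⟩
    have := (e2 q hq).add (hK₂g q hq hq')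
    rwa [sub_add_cancel] at this
  have key := wang_aux hθ h0 (le_max_right _ _) (cut_win (L := L) (f := c))
    (cut_win (L := L) (f := g)) hgs' (by
      have h2 := e2.d
      rw [d_sub'] at h2
      refine (((hcg.add e3).sub e1).sub h2).congr fun l _ _ => ?_
      simp only [Pi.sub_apply, Pi.add_apply, pull_sub]
      ring)
  rw [cls_eq_zero_iff]
  have h4 := (coboundaries R IsCompact (cov A θ) (n + 2)).sub_mem key
    (LZ.mem_coboundaries (n := n + 2) e1)
  have h5 : cut {q | |q.2| < L} c - (cut {q | |q.2| < L} c - c) = c := by abel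
  rwa [h5] at h4

end Loc

end Pool.Agent.Helper13.DS
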