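import Pool.Agent.Helper13.DS.Tools
import Pool.Agent.Helper13.DS.Transfer
import Pool.Agent.Helper13.DS.Wang

/-!
# The infinite cyclic cover over `M × Z`: the deck transformation acts as the identity

`Ut τ = {((m, (x, y)), t) : τ m (x² - y³) = exp (i t)}`. `M` is compact with a circle action `Rm`
such that `τ (u m) = u³ τ m`. Then `shift^* = 1` on the compactly supported rational cohomology of
`Ut τ` (`shift_eq`).

Proof. `shift³` is isotopic to the identity by the action of the circle on `M`. The isotopy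
`(x, y, t) ↦ (λ³ x, λ² y, t + 6 φ)`, `λ = exp (i φ)`, shows that `ι shift³` and `ν shift⁴` are isotopic to
the identity, where `ι (x, y) = (-x, y)` and `ν (x, y) = (x, ω y)`. So `ι^* = 1`, and by the transfer
for the branched double cover `(m, (x, y), t) ↦ (m, y, t)` every class is pulled back from
`M × ℂ × ℝ`, where `ν` is isotopic to the identity. So `ν^* = 1` and `shift^* = 1`.
-/

namespace Pool.Agent.Helper13.DS

open Set Filter Topology Pool.Agent.Helper36.AS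

set_option linter.unusedSectionVars false

variable {M : Type*} [MetricSpace M] (τ : M → Circle)

/-- The infinite cyclic cover over `M × Z`. -/
def Ut : Set ((M × (ℂ × ℂ)) × ℝ) :=
  {q | (τ q.1.1 : ℂ) * (q.1.2.1 ^ 2 - q.1.2.2 ^ 3) = (Circle.exp q.2 : ℂ)}

variable {τ}

/-- A square root. -/
noncomputable def sq (w : ℂ) : ℂ := (IsAlgClosed.exists_pow_nat_eq w (n := 2) (by norm_num)).choose

theorem sq_pow (w : ℂ) : sq w ^ 2 = w :=
  (IsAlgClosed.exists_pow_nat_eq w (n := 2) (by norm_num)).choose_spec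

/-- The covering involution. -/
def inv2 (q : (M × (ℂ × ℂ)) × ℝ) : (M × (ℂ × ℂ)) × ℝ := ((q.1.1, (-q.1.2.1, q.1.2.2)), q.2)

/-- The branched double cover. -/
def pr2 (q : (M × (ℂ × ℂ)) × ℝ) : (M × ℂ) × ℝ := ((q.1.1, q.1.2.2), q.2)

variable (τ) in
/-- The square of the first coordinate. -/
noncomputable def rad (y : (M × ℂ) × ℝ) : ℂ :=
  y.1.2 ^ 3 + (τ y.1.1 : ℂ)⁻¹ * (Circle.exp y.2 : ℂ)

variable (τ) in
/-- The section. -/
noncomputable def sec (y : (M × ℂ) × ℝ) : (M × (ℂ × ℂ)) × ℝ := ((y.1.1, (sq (rad τ y), y.1.2)), y.2)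

theorem mem_Ut {q : (M × (ℂ × ℂ)) × ℝ} : q ∈ Ut τ ↔ q.1.2.1 ^ 2 = rad τ (pr2 q) := by
  have h := Circle.coe_ne_zero (τ q.1.1)
  simp only [Ut, mem_ofPred_eq, rad, pr2]
  constructor
  · intro h1
    rw [← h1]
    field_simp
    ring
  · intro h1
    rw [h1]
    field_simp
    ring

variable (hτ : Continuous τ)

include hτ

theorem continuous_rad : Continuous (rad τ) := by
  unfold rad
  have h1 : Continuous fun y : (M × ℂ) × ℝ => (τ y.1.1 : ℂ)⁻¹ :=
    (continuous_subtype_val.comp (hτ.comp (by fun_prop))).inv₀ fun y => Circle.coe_ne_zero _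
  have h2 : Continuous fun y : (M × ℂ) × ℝ => (Circle.exp y.2 : ℂ) :=
    continuous_subtype_val.comp (Circle.exp.continuous.comp continuous_snd)
  exact (by fun_prop : Continuous fun y : (M × ℂ) × ℝ => y.1.2 ^ 3).add (h1.mul h2)

theorem isClosed_Ut : IsClosed (Ut τ) := by
  have h1 : Continuous (pr2 (M := M)) := by unfold pr2; fun_prop
  have : Ut τ = {q | q.1.2.1 ^ 2 = rad τ (pr2 q)} := by
    ext q
    exact mem_Ut
  rw [this]
  exact isClosed_eq (by fun_prop) ((continuous_rad hτ).comp h1)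

theorem bdc [CompactSpace M] : BDC (Ut τ) {q | q.1.2.1 = 0} univ {y | rad τ y = 0} inv2 pr2
    (sec τ) where
  hF := isClosed_eq (by fun_prop) continuous_const
  hF' := isClosed_eq (continuous_rad hτ) continuous_const
  ιmap := by
    have h1 : Continuous (inv2 (M := M)) := by unfold inv2; fun_prop
    have h2 : ∀ q : (M × (ℂ × ℂ)) × ℝ, q ∈ Ut τ → inv2 q ∈ Ut τ := by
      intro q hq
      rw [mem_Ut] at hq ⊢
      simpa [inv2, pr2] using hq
    have h3 : ∀ q : (M × (ℂ × ℂ)) × ℝ, inv2 (inv2 q) = q := by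
      intro q
      simp [inv2]
    exact smap_of_inv (ψ := inv2) h1.continuousOn h2 h1.continuousOn h2 (fun q _ => h3 q)
      fun q _ => h3 q
  ιι := fun q _ => by simp [inv2]
  fixed := fun q _ => by
    simp only [inv2, mem_ofPred_eq]
    constructor
    · intro h
      have h1 : -q.1.2.1 = q.1.2.1 := congrArg (fun q => q.1.2.1) h
      exact neg_eq_self.1 h1
    · intro h
      rw [h, neg_zero]
      ext <;> simp [h]
  pmap := by
    have h1 : Continuous (pr2 (M := M)) := by unfold pr2; fun_prop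
    refine ⟨h1.continuousOn, fun _ _ => mem_univ _, fun K _ hK => ?_⟩
    obtain ⟨C, hC⟩ := (hK.image ((continuous_rad hτ).norm)).bddAbove
    have h2 : IsCompact ((fun p : ((M × ℂ) × ℝ) × ℂ => ((p.1.1.1, (p.2, p.1.1.2)), p.1.2)) ''
        (K ×ˢ Metric.closedBall (0 : ℂ) (C + 1))) :=
      (hK.prod (isCompact_closedBall _ _)).image (by fun_prop)
    refine h2.of_isClosed_subset ((isClosed_Ut hτ).inter (hK.isClosed.preimage h1)) ?_
    rintro q ⟨hq, hqK⟩
    refine ⟨(pr2 q, q.1.2.1), ⟨hqK, ?_⟩, rfl⟩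
    rw [mem_closedBall_zero_iff]
    rw [mem_Ut] at hq
    have h3 : ‖rad τ (pr2 q)‖ ≤ C := hC ⟨_, hqK, rfl⟩
    rw [← hq, norm_pow] at h3
    nlinarith [norm_nonneg q.1.2.1]
  pι := fun q _ => rfl
  pF := fun q hq => by
    rw [mem_Ut] at hq
    simp only [mem_ofPred_eq, ← hq]
    simp
  smaps := fun y _ => by
    rw [mem_Ut]
    exact sq_pow _
  ps := fun y _ => rfl
  fib := fun q hq => by
    rw [mem_Ut] at hq
    have h1 : sq (rad τ (pr2 q)) ^ 2 = q.1.2.1 ^ 2 := by rw [sq_pow, hq]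
    rcases sq_eq_sq_iff_eq_or_eq_neg.1 h1 with h2 | h2
    · left
      show ((q.1.1, (sq (rad τ (pr2 q)), q.1.2.2)), q.2) = q
      rw [h2]
    · right
      show ((q.1.1, (sq (rad τ (pr2 q)), q.1.2.2)), q.2) = ((q.1.1, (-q.1.2.1, q.1.2.2)), q.2)
      rw [h2]

theorem good_Ut [CompactSpace M] : Good IsCompact (Ut τ) :=
  good_compact _ (isClosed_Ut hτ).locallyCompactSpace

omit hτ in
theorem good_univ [CompactSpace M] : Good IsCompact (univ : Set ((M × ℂ) × ℝ)) :=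
  good_compact _ isClosed_univ.locallyCompactSpace

omit hτ in
theorem exp_shift (t : ℝ) (i : ℤ) : Circle.exp (t + i * (2 * Real.pi)) = Circle.exp t :=
  Circle.exp_eq_exp.2 ⟨i, rfl⟩

omit hτ in
theorem shift_Ut {q : (M × (ℂ × ℂ)) × ℝ} (hq : q ∈ Ut τ) (i : ℤ) : shift i q ∈ Ut τ := by
  have h : (τ q.1.1 : ℂ) * (q.1.2.1 ^ 2 - q.1.2.2 ^ 3) = (Circle.exp q.2 : ℂ) := hq
  show (τ q.1.1 : ℂ) * (q.1.2.1 ^ 2 - q.1.2.2 ^ 3) =
    (Circle.exp (q.2 + i * (2 * Real.pi)) : ℂ)
  rw [exp_shift, h]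

omit hτ in
theorem smap_shift (i : ℤ) : SMap IsCompact IsCompact (Ut τ) (Ut τ) (shift i) :=
  smap_of_inv (ψ := shift (-i)) (continuous_shift i).continuousOn (fun _ hq => shift_Ut hq i)
    (continuous_shift (-i)).continuousOn (fun _ hq => shift_Ut hq (-i))
    (fun q _ => by rw [shift_shift, add_neg_cancel, shift_zero])
    (fun q _ => by rw [shift_shift, neg_add_cancel, shift_zero])

/-- The scaling `(x, y, t) ↦ (λ³ x, λ² y, t + 6 φ)`, `λ = exp (i φ)`. -/
noncomputable def scal (φ : ℝ) (q : (M × (ℂ × ℂ)) × ℝ) : (M × (ℂ × ℂ)) × ℝ :=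
  ((q.1.1, ((Circle.exp φ : ℂ) ^ 3 * q.1.2.1, (Circle.exp φ : ℂ) ^ 2 * q.1.2.2)), q.2 + 6 * φ)

omit hτ in
theorem coe_exp_add (a b : ℝ) :
    (Circle.exp (a + b) : ℂ) = (Circle.exp a : ℂ) * (Circle.exp b : ℂ) := by
  rw [Circle.exp_add]
  rfl

omit hτ in
theorem exp_six (φ : ℝ) : (Circle.exp (6 * φ) : ℂ) = (Circle.exp φ : ℂ) ^ 6 := by
  rw [Circle.coe_exp, Circle.coe_exp, ← Complex.exp_nat_mul]
  congr 1
  push_cast
  ring

omit hτ in
theorem scal_mem {q : (M × (ℂ × ℂ)) × ℝ} (hq : q ∈ Ut τ) (φ : ℝ) : scal φ q ∈ Ut τ := by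
  have h : (τ q.1.1 : ℂ) * (q.1.2.1 ^ 2 - q.1.2.2 ^ 3) = (Circle.exp q.2 : ℂ) := hq
  show (τ q.1.1 : ℂ) * (((Circle.exp φ : ℂ) ^ 3 * q.1.2.1) ^ 2 -
    ((Circle.exp φ : ℂ) ^ 2 * q.1.2.2) ^ 3) = (Circle.exp (q.2 + 6 * φ) : ℂ)
  rw [coe_exp_add, exp_six, ← h]
  ring

omit hτ in
theorem scal_scal (φ ψ : ℝ) (q : (M × (ℂ × ℂ)) × ℝ) : scal φ (scal ψ q) = scal (φ + ψ) q := by
  simp only [scal, coe_exp_add, Prod.mk.injEq, true_and]
  refine ⟨⟨?_, ?_⟩, ?_⟩ <;> ring

omit hτ in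
theorem scal_zero (q : (M × (ℂ × ℂ)) × ℝ) : scal 0 q = q := by
  simp [scal]

omit hτ in
theorem continuous_scal : Continuous fun p : ℝ × ((M × (ℂ × ℂ)) × ℝ) => scal p.1 p.2 := by
  unfold scal
  have h : Continuous fun p : ℝ × ((M × (ℂ × ℂ)) × ℝ) => (Circle.exp p.1 : ℂ) :=
    continuous_subtype_val.comp (Circle.exp.continuous.comp continuous_fst)
  fun_prop

omit hτ in
theorem smap_scal (φ : ℝ) : SMap IsCompact IsCompact (Ut τ) (Ut τ) (scal φ) := by
  have h : ∀ φ, Continuous (scal (M := M) φ) := fun φ =>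
    continuous_scal.comp (continuous_const.prodMk continuous_id)
  exact smap_of_inv (ψ := scal (-φ)) (h φ).continuousOn (fun _ hq => scal_mem hq φ)
    (h (-φ)).continuousOn (fun _ hq => scal_mem hq (-φ))
    (fun q _ => by rw [scal_scal, neg_add_cancel, scal_zero])
    (fun q _ => by rw [scal_scal, add_neg_cancel, scal_zero])

/-- The scalings act as the identity in cohomology. -/
theorem scal_map [CompactSpace M] {R : Type*} [CommRing R] (φ : ℝ) (n : ℕ) (α : Hc R (Ut τ) n) :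
    (smap_scal (τ := τ) φ).map R n α = α := by
  have hc : Continuous fun p : ((M × (ℂ × ℂ)) × ℝ) × ℝ => scal (φ * p.2) p.1 :=
    continuous_scal.comp ((continuous_const.mul continuous_snd).prodMk continuous_fst)
  have hc' : Continuous fun p : ((M × (ℂ × ℂ)) × ℝ) × ℝ => scal (-(φ * p.2)) p.1 :=
    continuous_scal.comp ((continuous_const.mul continuous_snd).neg.prodMk continuous_fst)
  have hG : SHomotopy IsCompact IsCompact (Ut τ) (Ut τ) (fun q s => scal (φ * s) q) :=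
    shomotopy_of_inv (G' := fun q s => scal (-(φ * s)) q) hc.continuousOn
      (fun q hq s _ => scal_mem hq _) hc'.continuousOn (fun q hq s _ => scal_mem hq _)
      (fun q _ s _ => by rw [scal_scal, neg_add_cancel, scal_zero])
      (fun q _ s _ => by rw [scal_scal, add_neg_cancel, scal_zero])
  have h1 := hG.map_eq (R := R) (good_Ut hτ) (φ := fun q => q) (ψ := scal φ) (SMap.refl _ _)
    (smap_scal φ) (fun q _ => by simp [scal_zero]) (fun q _ => by simp) n α
  rw [← h1, SMap.map_refl]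

/-- The action of the circle on `M`. -/
structure Act (τ : M → Circle) (Rm : Circle → M → M) : Prop where
  cont : Continuous fun p : Circle × M => Rm p.1 p.2
  one : ∀ m, Rm 1 m = m
  mul : ∀ u v m, Rm (u * v) m = Rm u (Rm v m)
  eq : ∀ u m, τ (Rm u m) = u ^ 3 * τ m

/-- The isotopy given by the action on `M`. -/
noncomputable def rotM (Rm : Circle → M → M) (φ : ℝ) (q : (M × (ℂ × ℂ)) × ℝ) :
    (M × (ℂ × ℂ)) × ℝ :=
  ((Rm (Circle.exp φ) q.1.1, q.1.2), q.2 + 3 * φ)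

omit hτ in
theorem coe_exp_three (φ : ℝ) : (Circle.exp (3 * φ) : ℂ) = (Circle.exp φ : ℂ) ^ 3 := by
  rw [Circle.coe_exp, Circle.coe_exp, ← Complex.exp_nat_mul]
  congr 1
  push_cast
  ring

omit hτ in
theorem rotM_mem {Rm : Circle → M → M} (hR : Act τ Rm) {q : (M × (ℂ × ℂ)) × ℝ} (hq : q ∈ Ut τ)
    (φ : ℝ) : rotM Rm φ q ∈ Ut τ := by
  have h : (τ q.1.1 : ℂ) * (q.1.2.1 ^ 2 - q.1.2.2 ^ 3) = (Circle.exp q.2 : ℂ) := hq
  show (τ (Rm (Circle.exp φ) q.1.1) : ℂ) * (q.1.2.1 ^ 2 - q.1.2.2 ^ 3) =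
    (Circle.exp (q.2 + 3 * φ) : ℂ)
  rw [coe_exp_add, coe_exp_three, ← h, hR.eq]
  push_cast
  ring

omit hτ in
theorem rotM_rotM {Rm : Circle → M → M} (hR : Act τ Rm) (φ ψ : ℝ) (q : (M × (ℂ × ℂ)) × ℝ) :
    rotM Rm φ (rotM Rm ψ q) = rotM Rm (φ + ψ) q := by
  simp only [rotM, Circle.exp_add, hR.mul, Prod.mk.injEq, true_and]
  ring

omit hτ in
theorem rotM_zero {Rm : Circle → M → M} (hR : Act τ Rm) (q : (M × (ℂ × ℂ)) × ℝ) :
    rotM Rm 0 q = q := by
  simp [rotM, hR.one]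

omit hτ in
theorem continuous_rotM {Rm : Circle → M → M} (hR : Act τ Rm) :
    Continuous fun p : ℝ × ((M × (ℂ × ℂ)) × ℝ) => rotM Rm p.1 p.2 := by
  unfold rotM
  have h : Continuous fun p : ℝ × ((M × (ℂ × ℂ)) × ℝ) => Rm (Circle.exp p.1) p.2.1.1 :=
    hR.cont.comp ((Circle.exp.continuous.comp continuous_fst).prodMk (by fun_prop))
  exact (h.prodMk (by fun_prop)).prodMk (by fun_prop)

omit hτ in
theorem rotM_two_pi {Rm : Circle → M → M} (hR : Act τ Rm) (q : (M × (ℂ × ℂ)) × ℝ) :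
    rotM Rm (2 * Real.pi) q = shift 3 q := by
  simp only [rotM, shift, Circle.exp_two_pi, hR.one, Prod.mk.injEq, true_and]
  push_cast
  ring

/-- `shift³` acts as the identity. -/
theorem shift_three [CompactSpace M] {Rm : Circle → M → M} (hR : Act τ Rm) {R : Type*} [CommRing R]
    (n : ℕ) (α : Hc R (Ut τ) n) : (smap_shift (τ := τ) 3).map R n α = α := by
  have hc : Continuous fun p : ((M × (ℂ × ℂ)) × ℝ) × ℝ => rotM Rm (2 * Real.pi * p.2) p.1 :=
    (continuous_rotM hR).comp ((continuous_const.mul continuous_snd).prodMk continuous_fst)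
  have hc' : Continuous fun p : ((M × (ℂ × ℂ)) × ℝ) × ℝ => rotM Rm (-(2 * Real.pi * p.2)) p.1 :=
    (continuous_rotM hR).comp ((continuous_const.mul continuous_snd).neg.prodMk continuous_fst)
  have hG : SHomotopy IsCompact IsCompact (Ut τ) (Ut τ)
      (fun q s => rotM Rm (2 * Real.pi * s) q) :=
    shomotopy_of_inv (G' := fun q s => rotM Rm (-(2 * Real.pi * s)) q) hc.continuousOn
      (fun q hq s _ => rotM_mem hR hq _) hc'.continuousOn (fun q hq s _ => rotM_mem hR hq _)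
      (fun q _ s _ => by rw [rotM_rotM hR, neg_add_cancel, rotM_zero hR])
      (fun q _ s _ => by rw [rotM_rotM hR, add_neg_cancel, rotM_zero hR])
  have h1 := hG.map_eq (R := R) (good_Ut hτ) (φ := fun q => q) (ψ := shift 3) (SMap.refl _ _)
    (smap_shift 3) (fun q _ => by rw [mul_zero]; exact rotM_zero hR q)
    (fun q _ => by rw [mul_one]; exact rotM_two_pi hR q) n α
  rw [← h1, SMap.map_refl]

/-- The rotation of the second coordinate by a third root of unity. -/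
noncomputable def nu (q : (M × (ℂ × ℂ)) × ℝ) : (M × (ℂ × ℂ)) × ℝ :=
  ((q.1.1, (q.1.2.1, (Circle.exp (2 * Real.pi / 3) : ℂ) * q.1.2.2)), q.2)

/-- The rotation of the second coordinate, on the quotient. -/
noncomputable def nuY (φ : ℝ) (y : (M × ℂ) × ℝ) : (M × ℂ) × ℝ :=
  ((y.1.1, (Circle.exp φ : ℂ) * y.1.2), y.2)

omit hτ in
theorem nuY_nuY (φ ψ : ℝ) (y : (M × ℂ) × ℝ) : nuY φ (nuY ψ y) = nuY (φ + ψ) y := by
  simp only [nuY, coe_exp_add, mul_assoc]

omit hτ in
theorem nuY_zero (y : (M × ℂ) × ℝ) : nuY 0 y = y := by simp [nuY]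

omit hτ in
theorem continuous_nuY : Continuous fun p : ℝ × ((M × ℂ) × ℝ) => nuY p.1 p.2 := by
  unfold nuY
  have h : Continuous fun p : ℝ × ((M × ℂ) × ℝ) => (Circle.exp p.1 : ℂ) :=
    continuous_subtype_val.comp (Circle.exp.continuous.comp continuous_fst)
  fun_prop

omit hτ in
theorem smap_nuY (φ : ℝ) :
    SMap IsCompact IsCompact (univ : Set ((M × ℂ) × ℝ)) univ (nuY φ) := by
  have h : ∀ φ, Continuous (nuY (M := M) φ) := fun φ =>
    continuous_nuY.comp (continuous_const.prodMk continuous_id)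
  exact smap_of_inv (ψ := nuY (-φ)) (h φ).continuousOn (fun _ _ => mem_univ _)
    (h (-φ)).continuousOn (fun _ _ => mem_univ _)
    (fun q _ => by rw [nuY_nuY, neg_add_cancel, nuY_zero])
    (fun q _ => by rw [nuY_nuY, add_neg_cancel, nuY_zero])

omit hτ in
theorem nuY_map [CompactSpace M] {R : Type*} [CommRing R] (φ : ℝ) (n : ℕ)
    (β : Hc R (univ : Set ((M × ℂ) × ℝ)) n) : (smap_nuY (M := M) φ).map R n β = β := by
  have hc : Continuous fun p : ((M × ℂ) × ℝ) × ℝ => nuY (φ * p.2) p.1 :=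
    continuous_nuY.comp ((continuous_const.mul continuous_snd).prodMk continuous_fst)
  have hc' : Continuous fun p : ((M × ℂ) × ℝ) × ℝ => nuY (-(φ * p.2)) p.1 :=
    continuous_nuY.comp ((continuous_const.mul continuous_snd).neg.prodMk continuous_fst)
  have hG : SHomotopy IsCompact IsCompact (univ : Set ((M × ℂ) × ℝ)) univ
      (fun q s => nuY (φ * s) q) :=
    shomotopy_of_inv (G' := fun q s => nuY (-(φ * s)) q) hc.continuousOn
      (fun q hq s _ => mem_univ _) hc'.continuousOn (fun q hq s _ => mem_univ _)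
      (fun q _ s _ => by rw [nuY_nuY, neg_add_cancel, nuY_zero])
      (fun q _ s _ => by rw [nuY_nuY, add_neg_cancel, nuY_zero])
  have h1 := hG.map_eq (R := R) good_univ (φ := fun q => q) (ψ := nuY φ) (SMap.refl _ _)
    (smap_nuY φ) (fun q _ => by simp [nuY_zero]) (fun q _ => by simp) n β
  rw [← h1, SMap.map_refl]

omit hτ in
theorem exp_third_cube : (Circle.exp (2 * Real.pi / 3) : ℂ) ^ 3 = 1 := by
  have h1 := coe_exp_three (2 * Real.pi / 3)
  rw [← h1, show 3 * (2 * Real.pi / 3) = 2 * Real.pi by ring, Circle.exp_two_pi]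
  rfl

omit hτ in
/-- `ν shift⁴` is a scaling. -/
theorem scal_nu (q : (M × (ℂ × ℂ)) × ℝ) : scal (4 * Real.pi / 3) q = nu (shift 4 q) := by
  have h1 : (Circle.exp (4 * Real.pi / 3) : ℂ) = (Circle.exp (2 * Real.pi / 3) : ℂ) ^ 2 := by
    rw [show 4 * Real.pi / 3 = 2 * Real.pi / 3 + 2 * Real.pi / 3 by ring, coe_exp_add]
    ring
  have h2 := exp_third_cube
  simp only [scal, nu, shift, h1, Prod.mk.injEq, true_and]
  refine ⟨⟨?_, ?_⟩, ?_⟩
  · linear_combination (((Circle.exp (2 * Real.pi / 3) : ℂ) ^ 3 + 1) * q.1.2.1) * h2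
  · linear_combination ((Circle.exp (2 * Real.pi / 3) : ℂ) * q.1.2.2) * h2
  · push_cast
    ring

omit hτ in
/-- `ι shift³` is a scaling. -/
theorem scal_inv (q : (M × (ℂ × ℂ)) × ℝ) : scal Real.pi q = inv2 (shift 3 q) := by
  have h1 : (Circle.exp Real.pi : ℂ) = -1 := by
    rw [Circle.coe_exp, Complex.exp_pi_mul_I]
  simp only [scal, inv2, shift, h1, Prod.mk.injEq, true_and]
  refine ⟨⟨?_, ?_⟩, ?_⟩
  · ring
  · ring
  · push_cast
    ring

omit hτ in
theorem nu_mem {q : (M × (ℂ × ℂ)) × ℝ} (hq : q ∈ Ut τ) : nu q ∈ Ut τ := by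
  have h : (τ q.1.1 : ℂ) * (q.1.2.1 ^ 2 - q.1.2.2 ^ 3) = (Circle.exp q.2 : ℂ) := hq
  show (τ q.1.1 : ℂ) * (q.1.2.1 ^ 2 -
    ((Circle.exp (2 * Real.pi / 3) : ℂ) * q.1.2.2) ^ 3) = (Circle.exp q.2 : ℂ)
  rw [mul_pow, exp_third_cube, one_mul, h]

omit hτ in
theorem continuous_nu : Continuous (nu (M := M)) := by
  unfold nu
  fun_prop

omit hτ in
theorem smap_nu : SMap IsCompact IsCompact (Ut τ) (Ut τ) nu := by
  have h : ∀ q : (M × (ℂ × ℂ)) × ℝ, nu (nu (nu q)) = q := by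
    intro q
    simp only [nu]
    rw [← mul_assoc, ← mul_assoc, ← pow_two, ← pow_succ, exp_third_cube, one_mul]
  exact smap_of_inv (ψ := fun q => nu (nu q)) continuous_nu.continuousOn (fun _ hq => nu_mem hq)
    (continuous_nu.comp continuous_nu).continuousOn (fun _ hq => nu_mem (nu_mem hq))
    (fun q _ => h q) (fun q _ => h q)

/-- The deck transformation acts as the identity on `Hc ℚ (Ut τ)`. -/
theorem shift_eq [CompactSpace M] {Rm : Circle → M → M} (hR : Act τ Rm) (n : ℕ)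
    (α : Hc ℚ (Ut τ) n) : (smap_shift (τ := τ) 1).map ℚ n α = α := by
  have hb := bdc hτ
  -- `shift³ = 1`
  have h3 := fun β : Hc ℚ (Ut τ) n => shift_three hτ hR n β
  -- `ι^* = 1`
  have hι : ∀ β : Hc ℚ (Ut τ) n, hb.ιmap.map ℚ n β = β := by
    intro β
    have e1 := SMap.map_comp (R := ℚ) hb.ιmap (smap_shift (τ := τ) 3) n β
    have e2 := SMap.map_congr (R := ℚ) (smap_scal (τ := τ) Real.pi)
      (hb.ιmap.comp (smap_shift (τ := τ) 3)) (fun q _ => scal_inv q) n β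
    rw [scal_map hτ] at e2
    rw [← e2, h3] at e1
    exact e1.symm
  -- `ν^* = 1`
  have hν : ∀ β : Hc ℚ (Ut τ) n, (smap_nu (τ := τ)).map ℚ n β = β := by
    intro β
    obtain ⟨γ, hγ⟩ := hb.transfer (good_Ut hτ) good_univ n β
    rw [hι β] at hγ
    have e1 := SMap.map_comp (R := ℚ) hb.pmap (smap_nu (τ := τ)) n γ
    have e2 := SMap.map_comp (R := ℚ) (smap_nuY (M := M) (2 * Real.pi / 3)) hb.pmap n γ
    have e3 := SMap.map_congr (R := ℚ) (hb.pmap.comp (smap_nu (τ := τ)))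
      ((smap_nuY (M := M) (2 * Real.pi / 3)).comp hb.pmap) (fun q _ => rfl) n γ
    rw [e1, e2, nuY_map, hγ, map_add] at e3
    have e4 : (2 : ℚ) • (smap_nu (τ := τ)).map ℚ n β = (2 : ℚ) • β := by
      rw [two_smul, two_smul]
      exact e3
    have e5 := congrArg (fun x => (2⁻¹ : ℚ) • x) e4
    simpa [smul_smul] using e5
  -- `shift⁴ = 1`
  have h4 : (smap_shift (τ := τ) 4).map ℚ n α = α := by
    have e1 := SMap.map_comp (R := ℚ) (smap_nu (τ := τ)) (smap_shift (τ := τ) 4) n α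
    have e2 := SMap.map_congr (R := ℚ) (smap_scal (τ := τ) (4 * Real.pi / 3))
      ((smap_nu (τ := τ)).comp (smap_shift (τ := τ) 4)) (fun q _ => scal_nu q) n α
    rw [scal_map hτ] at e2
    rw [← e2, hν] at e1
    exact e1.symm
  have e1 := SMap.map_comp (R := ℚ) (smap_shift (τ := τ) 1) (smap_shift (τ := τ) 3) n α
  have e2 := SMap.map_congr (R := ℚ) (smap_shift (τ := τ) 4)
    ((smap_shift (τ := τ) 1).comp (smap_shift (τ := τ) 3)) (fun q _ => by
      show _ = shift 1 (shift 3 q)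
      rw [shift_shift]
      norm_num) n α
  rw [e1, h3, h4] at e2
  exact e2.symm

end Pool.Agent.Helper13.DS
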