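import Pool.Agent.Helper36.AS.Homotopy

/-!
# Small tools for compactly supported Alexander-Spanier cohomology
-/

namespace Pool.Agent.Helper13.DS

open Set Filter Topology Pool.Agent.Helper36.AS

variable {X Y Z R : Type*} [MetricSpace X] [MetricSpace Y] [MetricSpace Z] [CommRing R]

/-- Compact supports are a good family on a locally compact subset. -/
theorem good_compact (T : Set X) (h : LocallyCompactSpace T) : Good IsCompact T := by
  intro K hKT hK _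
  have hK' : IsCompact ((↑) ⁻¹' K : Set T) := by
    rw [Topology.IsInducing.subtypeVal.isCompact_preimage_iff (by simpa using hKT)]
    exact hK
  obtain ⟨L, hL, hKL⟩ := exists_compact_superset hK'
  obtain ⟨V, hV, hV'⟩ := isOpen_induced_iff.1 (isOpen_interior (s := L))
  have hLc : IsCompact ((↑) '' L : Set X) := hL.image continuous_subtype_val
  refine ⟨V, hV, fun x hx => ?_, (↑) '' L, ?_, hLc, ?_, fun x hx => ?_⟩
  · have h1 : (⟨x, hKT hx⟩ : T) ∈ interior L := hKL hx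
    rw [← hV'] at h1
    exact h1
  · rintro _ ⟨x, _, rfl⟩
    exact x.2
  · rintro x ⟨hxV, hxT⟩
    refine ⟨⟨x, hxT⟩, ?_, rfl⟩
    apply interior_subset
    rw [← hV']
    exact hxV
  · rw [hLc.isClosed.closure_eq] at hx
    exact hx.1

/-- A homeomorphism of subsets respects compact supports. -/
theorem smap_of_inv {T : Set X} {B : Set Y} {φ : X → Y} {ψ : Y → X} (hφ : ContinuousOn φ T)
    (hφm : MapsTo φ T B) (hψ : ContinuousOn ψ B) (hψm : MapsTo ψ B T)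
    (h1 : ∀ x ∈ T, ψ (φ x) = x) (h2 : ∀ y ∈ B, φ (ψ y) = y) : SMap IsCompact IsCompact T B φ := by
  refine ⟨hφ, hφm, fun K hK hKc => ?_⟩
  have : T ∩ φ ⁻¹' K = ψ '' K := by
    ext x
    constructor
    · rintro ⟨hx, hxK⟩
      exact ⟨φ x, hxK, h1 x hx⟩
    · rintro ⟨y, hy, rfl⟩
      exact ⟨hψm (hK hy), by rw [mem_preimage, h2 y (hK hy)]; exact hy⟩
  rw [this]
  exact hKc.image_of_continuousOn (hψ.mono hK)

/-- An isotopy respects compact supports. -/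
theorem shomotopy_of_inv {T : Set X} {B : Set Y} {G : X → ℝ → Y} {G' : Y → ℝ → X}
    (hG : ContinuousOn (fun p : X × ℝ => G p.1 p.2) (T ×ˢ Icc 0 1))
    (hGm : ∀ x ∈ T, ∀ s ∈ Icc (0 : ℝ) 1, G x s ∈ B)
    (hG' : ContinuousOn (fun p : Y × ℝ => G' p.1 p.2) (B ×ˢ Icc 0 1))
    (hGm' : ∀ y ∈ B, ∀ s ∈ Icc (0 : ℝ) 1, G' y s ∈ T)
    (h1 : ∀ x ∈ T, ∀ s ∈ Icc (0 : ℝ) 1, G' (G x s) s = x)
    (h2 : ∀ y ∈ B, ∀ s ∈ Icc (0 : ℝ) 1, G (G' y s) s = y) :
    SHomotopy IsCompact IsCompact T B G := by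
  refine ⟨hG, hGm, fun K hK hKc _ => ?_⟩
  have : {x | x ∈ T ∧ ∃ s ∈ Icc (0 : ℝ) 1, G x s ∈ K} =
      (fun p : Y × ℝ => G' p.1 p.2) '' (K ×ˢ Icc 0 1) := by
    ext x
    constructor
    · rintro ⟨hx, s, hs, hxK⟩
      exact ⟨(G x s, s), ⟨hxK, hs⟩, h1 x hx s hs⟩
    · rintro ⟨⟨y, s⟩, ⟨hy, hs⟩, rfl⟩
      exact ⟨hGm' y (hK hy) s hs, s, hs, by rw [h2 y (hK hy) s hs]; exact hy⟩
  rw [this]
  exact (hKc.prod isCompact_Icc).image_of_continuousOn
    (hG'.mono (prod_mono hK Subset.rfl))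

end Pool.Agent.Helper13.DS
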